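import Pool.Agent.TH831.OT.Few

/-!
# Even ordinary two-dimensional representations with pro-`p` image

Let `p ≥ 5` be a prime and `S` a finite set of primes `l ≠ p` with `l - 1` not divisible by `p ^ 2`.
Let `ρ : Gal(ℚbar/ℚ) → GL_2(ℤ_p)` be continuous, unramified outside `S ∪ {p}` and unipotent modulo
`p`, and suppose that the decomposition group at `p` preserves a line of `ℚ_p ^ 2`.
The theorem says that `ρ` is then reducible over `ℚ_p` under an explicit condition on power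
residues. If at most two primes in `S` are congruent to `1` modulo `p` the condition is: if `k` and
`l` are two such primes then `p` and `k` are not both `p`-th powers modulo `l`. In general it is a
condition on the linking numbers of the primes in `S ∪ {p}` which are congruent to `1` modulo `p`
or equal to `p`.
-/

set_option autoImplicit false

open NumberField Matrix

namespace Pool.Agent.Results.MP_f68ac8_nt.OrdinaryPlane

/-- The representation `ρ` of the absolute Galois group of `ℚ` is unramified at the prime ideal `P`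
of the ring of all algebraic integers: the inertia group at `P` acts trivially. -/
def UnramifiedAt {p : ℕ} [Fact p.Prime] (ρ : Gal(AlgebraicClosure ℚ/ℚ) →* GL (Fin 2) ℤ_[p])
    (P : Ideal (𝓞 (AlgebraicClosure ℚ))) : Prop :=
  ∀ τ : Gal(AlgebraicClosure ℚ/ℚ), (∀ x : 𝓞 (AlgebraicClosure ℚ), τ • x - x ∈ P) → ρ τ = 1

/-- `ρ` is unramified at all primes that do not lie above `p` or above a prime number in `S`. -/
def UnramifiedOutside {p : ℕ} [Fact p.Prime] (S : Finset ℕ)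
    (ρ : Gal(AlgebraicClosure ℚ/ℚ) →* GL (Fin 2) ℤ_[p]) : Prop :=
  ∀ P : Ideal (𝓞 (AlgebraicClosure ℚ)), P.IsMaximal →
    (∀ l ∈ S, (l : 𝓞 (AlgebraicClosure ℚ)) ∉ P) → (p : 𝓞 (AlgebraicClosure ℚ)) ∉ P →
      UnramifiedAt ρ P

/-- Every `ρ g` is unipotent modulo `p`: some power of `ρ g - 1` is divisible by `p`. -/
def ResiduallyUnipotent {p : ℕ} [Fact p.Prime]
    (ρ : Gal(AlgebraicClosure ℚ/ℚ) →* GL (Fin 2) ℤ_[p]) : Prop :=
  ∀ g, ∃ (N : ℕ) (β : Matrix (Fin 2) (Fin 2) ℤ_[p]),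
    ((ρ g : Matrix (Fin 2) (Fin 2) ℤ_[p]) - 1) ^ N = (p : ℤ_[p]) • β

/-- The decomposition group at the prime ideal `P` of the ring of all algebraic integers. -/
def Decomposition (P : Ideal (𝓞 (AlgebraicClosure ℚ))) : Set Gal(AlgebraicClosure ℚ/ℚ) :=
  {g | ∀ x : 𝓞 (AlgebraicClosure ℚ), g • x ∈ P ↔ x ∈ P}

/-- The elements of `D` preserve a line of `ℚ_p ^ 2`. For `D` the whole group this says that `ρ` is
reducible over `ℚ_p`. -/
def StableLine {p : ℕ} [Fact p.Prime] (ρ : Gal(AlgebraicClosure ℚ/ℚ) →* GL (Fin 2) ℤ_[p])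
    (D : Set Gal(AlgebraicClosure ℚ/ℚ)) : Prop :=
  ∃ v : Fin 2 → ℚ_[p], v ≠ 0 ∧ ∀ g ∈ D, ∃ c : ℚ_[p],
    ((ρ g : Matrix (Fin 2) (Fin 2) ℤ_[p]).map fun x => (x : ℚ_[p])) *ᵥ v = c • v

/-- The members of `S` congruent to `1` modulo `p`. -/
def Tame (p : ℕ) (S : Finset ℕ) : Finset ℕ := S.filter fun l => p ∣ l - 1

/-- At most two members of `S` are congruent to `1` modulo `p`, and if `l` and `k` are two such
members, then `p` and `k` are not both `p`-th powers modulo `l`. -/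
def AtMostTwo (p : ℕ) (S : Finset ℕ) : Prop :=
  (Tame p S).card ≤ 2 ∧ ∀ l ∈ Tame p S, ∀ k ∈ Tame p S, k ≠ l →
    (p : ZMod l) ^ ((l - 1) / p) ≠ 1 ∨ (k : ZMod l) ^ ((l - 1) / p) ≠ 1

/-- The linking number of the distinct primes `q` and `j`, with respect to a homomorphism
`χ : (ℤ/j)ˣ → ℤ/p`: the value of `χ` at the class of `q` (and `0` if `j` divides `q`). -/
noncomputable def linking {p : ℕ} (j q : ℕ) (χ : (ZMod j)ˣ →* Multiplicative (ZMod p)) : ZMod p :=
  open Classical in if h : Nat.Coprime q j then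
    Multiplicative.toAdd (χ (ZMod.unitOfCoprime q h)) else 0

/-- Characters of `Gal(ℚbar/ℚ)` of order `p` unramified outside `S ∪ {p}` are given by vectors
`(x_p, x_l)`, where `l` runs through `Tame p S`; the value at a Frobenius element at `l` is
`u_l x_p + ∑ λ_lj x_j` up to a multiple of `x_l`, `u_l = (l - 1) / p`. The condition says: there are
no two nonzero characters `x`, `y` such that for all `l` in `Tame p S`, if one of them is ramified
at `l` then the other one is trivial on the decomposition group at `l`, and such that one of them is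
trivial on the decomposition group at `p`. -/
def NoPair (p : ℕ) (S : Finset ℕ) (χ : ∀ j : ℕ, (ZMod j)ˣ →* Multiplicative (ZMod p)) : Prop :=
  ∀ (xp yp : ZMod p) (x y : ℕ → ZMod p), (∀ l ∈ Tame p S, x l * y l = 0) →
    (∀ l ∈ Tame p S, x l * ((((l - 1) / p : ℕ) : ZMod p) * yp +
      ∑ j ∈ Tame p S, linking j l (χ j) * y j) = 0) →
    (∀ l ∈ Tame p S, y l * ((((l - 1) / p : ℕ) : ZMod p) * xp +
      ∑ j ∈ Tame p S, linking j l (χ j) * x j) = 0) →
    ((xp = 0 ∧ ∑ j ∈ Tame p S, linking j p (χ j) * x j = 0) ∨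
      (yp = 0 ∧ ∑ j ∈ Tame p S, linking j p (χ j) * y j = 0)) →
    (xp = 0 ∧ ∀ l ∈ Tame p S, x l = 0) ∨ (yp = 0 ∧ ∀ l ∈ Tame p S, y l = 0)

/-- `v` is an eigenvector of `M` (or zero). -/
def Eigen {p : ℕ} (M : Matrix (Fin 2) (Fin 2) (ZMod p)) (v : Fin 2 → ZMod p) : Prop :=
  ∃ c : ZMod p, M *ᵥ v = c • v

/-- Whenever `C` and `T_l`, `l` in `Tame p S`, are matrices of trace zero over `ℤ/p` with
`T_l ^ 2 = 0` and `[u_l C + ∑ λ_lj T_j, T_l] = u_l T_l`, `u_l = (l - 1) / p`, and `C` and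
`∑ λ_jp T_j` have a common eigenvector, then `C` and all `T_l` have a common eigenvector. -/
def NoTuple (p : ℕ) (S : Finset ℕ) (χ : ∀ j : ℕ, (ZMod j)ˣ →* Multiplicative (ZMod p)) : Prop :=
  ∀ (C : Matrix (Fin 2) (Fin 2) (ZMod p)) (T : ℕ → Matrix (Fin 2) (Fin 2) (ZMod p)),
    C.trace = 0 → (∀ l ∈ Tame p S, T l * T l = 0) →
    (∀ l ∈ Tame p S,
      ((((l - 1) / p : ℕ) : ZMod p) • C + ∑ j ∈ Tame p S, linking j l (χ j) • T j) * T l -
      T l * ((((l - 1) / p : ℕ) : ZMod p) • C + ∑ j ∈ Tame p S, linking j l (χ j) • T j) =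
        (((l - 1) / p : ℕ) : ZMod p) • T l) →
    (∃ v : Fin 2 → ZMod p, v ≠ 0 ∧ Eigen C v ∧
      Eigen (∑ j ∈ Tame p S, linking j p (χ j) • T j) v) →
    ∃ w : Fin 2 → ZMod p, w ≠ 0 ∧ Eigen C w ∧ ∀ l ∈ Tame p S, Eigen (T l) w

/-! ### Translation -/

theorem eigen_iff {p : ℕ} [Fact p.Prime] {M : Matrix (Fin 2) (Fin 2) (ZMod p)}
    {v : Fin 2 → ZMod p} (hv : v ≠ 0) : Eigen M v ↔ TH831.OT.wed (M *ᵥ v) v = 0 := by
  constructor
  · rintro ⟨c, hc⟩
    rw [hc, TH831.OT.wed_smul_left, TH831.OT.wed_self, mul_zero]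
  · exact TH831.OT.eig_of_wed hv

theorem wed_coe {p : ℕ} [Fact p.Prime] (M : Matrix (Fin 2) (Fin 2) ℤ_[p]) (v : Fin 2 → ℤ_[p]) :
    TH831.OT.wed ((M.map fun x => (x : ℚ_[p])) *ᵥ fun i => (v i : ℚ_[p])) (fun i => (v i : ℚ_[p])) =
      ((TH831.OT.wed (M *ᵥ v) v : ℤ_[p]) : ℚ_[p]) := by
  simp only [TH831.OT.wed, Matrix.mulVec, dotProduct, Fin.sum_univ_two, Matrix.map_apply]
  push_cast
  ring

theorem hasLine_of_stableLine {p : ℕ} [Fact p.Prime]
    {ρ : Gal(AlgebraicClosure ℚ/ℚ) →* GL (Fin 2) ℤ_[p]} {D : Set Gal(AlgebraicClosure ℚ/ℚ)}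
    (h : StableLine ρ D) : TH831.OT.HasLine ρ D := by
  obtain ⟨v, hv, h⟩ := h
  -- a multiple of `v` with integral coordinates
  have key : ∃ (c : ℚ_[p]) (w : Fin 2 → ℤ_[p]), w ≠ 0 ∧ (fun i => (w i : ℚ_[p])) = c • v := by
    rcases le_total ‖v 0‖ ‖v 1‖ with hle | hle
    · have h1 : v 1 ≠ 0 := by
        intro h1
        rw [h1, norm_zero] at hle
        have h0 : v 0 = 0 := norm_le_zero_iff.1 hle
        exact hv (by funext i; fin_cases i; exacts [h0, h1])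
      have hn : ‖v 0 / v 1‖ ≤ 1 := by
        rw [norm_div]
        exact div_le_one_of_le₀ hle (norm_nonneg _)
      refine ⟨(v 1)⁻¹, ![⟨v 0 / v 1, hn⟩, 1], fun h0 => one_ne_zero (congrFun h0 1), ?_⟩
      funext i
      fin_cases i
      · show v 0 / v 1 = (v 1)⁻¹ * v 0
        rw [div_eq_inv_mul]
      · show ((1 : ℤ_[p]) : ℚ_[p]) = (v 1)⁻¹ * v 1
        rw [inv_mul_cancel₀ h1]
        rfl
    · have h1 : v 0 ≠ 0 := by
        intro h1
        rw [h1, norm_zero] at hle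
        have h0 : v 1 = 0 := norm_le_zero_iff.1 hle
        exact hv (by funext i; fin_cases i; exacts [h1, h0])
      have hn : ‖v 1 / v 0‖ ≤ 1 := by
        rw [norm_div]
        exact div_le_one_of_le₀ hle (norm_nonneg _)
      refine ⟨(v 0)⁻¹, ![1, ⟨v 1 / v 0, hn⟩], fun h0 => one_ne_zero (congrFun h0 0), ?_⟩
      funext i
      fin_cases i
      · show ((1 : ℤ_[p]) : ℚ_[p]) = (v 0)⁻¹ * v 0
        rw [inv_mul_cancel₀ h1]
        rfl
      · show v 1 / v 0 = (v 0)⁻¹ * v 1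
        rw [div_eq_inv_mul]
  obtain ⟨c, w, hw, hcw⟩ := key
  refine ⟨w, hw, fun g hg => ?_⟩
  obtain ⟨e, he⟩ := h g hg
  have h1 := wed_coe (ρ g : Matrix (Fin 2) (Fin 2) ℤ_[p]) w
  rw [hcw, Matrix.mulVec_smul, he, TH831.OT.wed_smul_left, TH831.OT.wed_smul_right,
    TH831.OT.wed_smul_left, TH831.OT.wed_self, mul_zero, mul_zero, mul_zero] at h1
  exact Subtype.ext h1.symm

theorem stableLine_of_hasLine {p : ℕ} [Fact p.Prime]
    {ρ : Gal(AlgebraicClosure ℚ/ℚ) →* GL (Fin 2) ℤ_[p]} {D : Set Gal(AlgebraicClosure ℚ/ℚ)}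
    (h : TH831.OT.HasLine ρ D) : StableLine ρ D := by
  obtain ⟨v, hv, h⟩ := h
  have hv' : (fun i => (v i : ℚ_[p])) ≠ 0 := fun h0 => hv (by
    funext i
    exact Subtype.ext (congrFun h0 i))
  refine ⟨fun i => (v i : ℚ_[p]), hv', fun g hg => ?_⟩
  apply TH831.OT.eig_of_wed hv'
  rw [wed_coe, h g hg]
  rfl

theorem linking_eq {p : ℕ} {j q : ℕ} (χ : (ZMod j)ˣ →* Multiplicative (ZMod p)) (x : (ZMod j)ˣ)
    (hx : (x : ZMod j) = (q : ZMod j)) : linking j q χ = Multiplicative.toAdd (χ x) := by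
  have h : Nat.Coprime q j := by
    rw [← ZMod.isUnit_iff_coprime, ← hx]
    exact x.isUnit
  unfold linking
  rw [dif_pos h]
  congr 2
  exact Units.ext (by rw [hx]; rfl)

/-- The theorem. -/
theorem result (p : ℕ) [Fact p.Prime] (hp : 5 ≤ p) (S : Finset ℕ)
    (hS : ∀ l ∈ S, l.Prime ∧ l ≠ p ∧ ¬ p ^ 2 ∣ l - 1)
    (hX : AtMostTwo p S ∨ ∃ χ : ∀ j : ℕ, (ZMod j)ˣ →* Multiplicative (ZMod p),
      (∀ l ∈ Tame p S, ∃ x, χ l x ≠ 1) ∧ NoPair p S χ ∧ NoTuple p S χ)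
    (ρ : Gal(AlgebraicClosure ℚ/ℚ) →* GL (Fin 2) ℤ_[p]) (hρ : Continuous ρ)
    (hur : UnramifiedOutside S ρ) (hres : ResiduallyUnipotent ρ)
    (P : Ideal (𝓞 (AlgebraicClosure ℚ))) (hP : P.IsMaximal)
    (hpP : (p : 𝓞 (AlgebraicClosure ℚ)) ∈ P) (hloc : StableLine ρ (Decomposition P)) :
    StableLine ρ Set.univ := by
  have hmem : ∀ l ∈ Tame p S, l ∈ S ∧ p ∣ l - 1 := fun l hl => Finset.mem_filter.1 hl
  have hu : ∀ l ∈ Tame p S, TH831.OT.uu p l ≠ 0 := by
    intro l hl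
    obtain ⟨h1, h2⟩ := hmem l hl
    unfold TH831.OT.uu
    rw [Ne, ZMod.natCast_eq_zero_iff]
    intro h
    apply (hS l h1).2.2
    rw [pow_two, ← Nat.mul_div_cancel' h2]
    exact Nat.mul_dvd_mul_left p h
  have main : ∀ χ : ∀ j : ℕ, (ZMod j)ˣ →* Multiplicative (ZMod p),
      (∀ l ∈ Tame p S, ∃ x, χ l x ≠ 1) →
      TH831.OT.H0 (Tame p S) (TH831.OT.uu p) (fun l j => linking j l (χ j))
        (fun j => linking j p (χ j)) →
      TH831.OT.H1 (Tame p S) (TH831.OT.uu p) (fun l j => linking j l (χ j))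
        (fun j => linking j p (χ j)) → StableLine ρ Set.univ := by
    intro χ hχ h0 h1
    apply stableLine_of_hasLine
    exact TH831.OT.ordinary hp S hS χ (fun l hl hpl => hχ l (Finset.mem_filter.2 ⟨hl, hpl⟩)) P hP
      hpP (fun l j => linking j l (χ j)) (fun j => linking j p (χ j))
      (fun l _ _ j _ _ _ x hx => linking_eq (χ j) x hx)
      (fun j _ _ x hx => linking_eq (χ j) x hx) h0 h1 ρ hρ hres
      (fun Q hQ h2 h3 τ hτ => hur Q hQ h2 h3 τ hτ) (hasLine_of_stableLine hloc)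
  rcases hX with ⟨hcard, hpow⟩ | ⟨χ, hχ, h0, h1⟩
  · -- at most two primes
    have e : ∀ j : ℕ, ∃ χ : (ZMod j)ˣ →* Multiplicative (ZMod p), j ∈ Tame p S →
        (∀ x, χ x = 1 ↔ x ^ ((j - 1) / p) = 1) ∧ ∃ x, χ x ≠ 1 := by
      intro j
      by_cases hj : j ∈ Tame p S
      · obtain ⟨h1, h2⟩ := hmem j hj
        obtain ⟨χ, hχ⟩ := W134.FM.exists_quot Fact.out (hS j h1).1 h2
        exact ⟨χ, fun _ => hχ⟩
      · exact ⟨1, fun h => absurd h hj⟩
    choose χ hχ using e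
    have hne : ∀ j ∈ Tame p S, ∀ q : ℕ, q.Prime → q ≠ j →
        (q : ZMod j) ^ ((j - 1) / p) ≠ 1 → linking j q (χ j) ≠ 0 := by
      intro j hj q hq hqj h h0
      have hcop : Nat.Coprime q j := (Nat.coprime_primes hq (hS j (hmem j hj).1).1).2 hqj
      unfold linking at h0
      rw [dif_pos hcop] at h0
      have h1 : χ j (ZMod.unitOfCoprime q hcop) = 1 := Multiplicative.toAdd.injective h0
      rw [(hχ j hj).1, Units.ext_iff, Units.val_pow_eq_pow_val, ZMod.coe_unitOfCoprime,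
        Units.val_one] at h1
      exact h h1
    refine main χ (fun l hl => (hχ l hl).2) ?_ ?_
    · refine TH831.OT.h0_few hcard hu fun l hl k hk hkl => ?_
      rcases hpow l hl k hk hkl with h | h
      · exact Or.inl (hne l hl p Fact.out (Ne.symm (hS l (hmem l hl).1).2.1) h)
      · exact Or.inr (hne l hl k (hS k (hmem k hk).1).1 hkl h)
    · exact TH831.OT.h1_few (by omega) hcard hu
  · refine main χ hχ (fun xp yp x y a1 a2 a3 a4 => h0 xp yp x y a1 a2 a3 a4) ?_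
    intro C T hC hT hrel hv
    obtain ⟨v, hv0, hv1, hv2⟩ := hv
    obtain ⟨w, hw0, hw1, hw2⟩ := h1 C T hC hT hrel
      ⟨v, hv0, (eigen_iff hv0).2 hv1, (eigen_iff hv0).2 hv2⟩
    refine ⟨w, hw0, (eigen_iff hw0).1 hw1, fun l hl => ?_⟩
    obtain ⟨c, hc⟩ := hw2 l hl
    have h2 : (T l * T l) *ᵥ w = c • c • w := by
      rw [← Matrix.mulVec_mulVec, hc, Matrix.mulVec_smul, hc]
    rw [hT l hl, Matrix.zero_mulVec, smul_smul] at h2
    rcases smul_eq_zero.1 h2.symm with h3 | h3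
    · rw [hc, mul_self_eq_zero.1 h3, zero_smul]
    · exact absurd h3 hw0

end Pool.Agent.Results.MP_f68ac8_nt.OrdinaryPlane
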