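import Mathlib
import Pool.Agent.TH119.PP.Main

/-!
# Geometric origin up to torsion is detected by a positive proportion of Frobenius eigenvalues

Let `K` be a number field, `ρ : Gal(K̄/K) → GL_n(k)` a continuous strongly irreducible
representation (irreducible on all open subgroups) and `W : Gal(K̄/K) → GL_m(k)` any continuous
representation, over an algebraically closed Hausdorff topological field `k` of characteristic zero,
such as `ℚ̄_p`; think of `W = H^i(X, ℚ̄_p)(j)` for a smooth projective variety `X` over `K`.  If for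
a set of primes `v` of *positive upper density* the eigenvalues of `ρ(Frob_v)` are, up to `N`-th
roots of unity, eigenvalues of `W(Frob_v)`, then there are `d ≥ 1` and a finite Galois extension
`L/K` such that all irreducible constituents of `ρ ⊗ ρ^∨`, of `ρ^{⊗ d}`, and of all
`ρ^{⊗ a} ⊗ (ρ^∨)^{⊗ b}` with `a ≡ b mod d`, are subquotients of tensor constructions
`W^{⊗ a'} ⊗ (W^∨)^{⊗ b'} ⊗ k[Gal(L/K)]`, hence come from the étale cohomology of varieties over `K`.
-/

namespace Pool.Agent.Results.MP_f68ac8_nt.PositiveProportion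

open NumberField IsDedekindDomain Polynomial Filter Topology
open scoped Kronecker

/-- The absolute Galois group, with the Krull topology. -/
abbrev AbsGal (K : Type) [Field K] : Type := Gal(AlgebraicClosure K/K)

/-- `σ` is a Frobenius element at the prime `v` of `K`: there is a maximal ideal `Q` above `v` of the
ring of all algebraic integers with `σ x ≡ x ^ N(v)` modulo `Q` for all `x`. -/
def IsFrobenius {K : Type} [Field K] [NumberField K] (v : HeightOneSpectrum (𝓞 K))
    (σ : AbsGal K) : Prop :=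
  ∃ Q : Ideal (𝓞 (AlgebraicClosure K)), Q.IsMaximal ∧
    Q.comap (algebraMap (𝓞 K) (𝓞 (AlgebraicClosure K))) = v.asIdeal ∧
    ∀ x : 𝓞 (AlgebraicClosure K), σ • x - x ^ Ideal.absNorm v.asIdeal ∈ Q

/-- The upper (natural) density of a set `S` of primes of `K`. -/
noncomputable def upperDensity {K : Type} [Field K] [NumberField K]
    (S : Set (HeightOneSpectrum (𝓞 K))) : ℝ :=
  limsup (fun x : ℕ =>
    ({v : HeightOneSpectrum (𝓞 K) | Ideal.absNorm v.asIdeal ≤ x ∧ v ∈ S}.ncard : ℝ) /
    {v : HeightOneSpectrum (𝓞 K) | Ideal.absNorm v.asIdeal ≤ x}.ncard) atTop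

/-- The representation `ρ` is irreducible: there are no stable subspaces except `0` and the whole
space. -/
def IsIrreducible {G : Type} [Group G] {n : ℕ} {k : Type} [Field k]
    (ρ : G →* Matrix.GeneralLinearGroup (Fin n) k) : Prop :=
  ∀ V : Submodule k (Fin n → k),
    (∀ g, ∀ x ∈ V, (ρ g : Matrix (Fin n) (Fin n) k).mulVec x ∈ V) → V = ⊥ ∨ V = ⊤

/-- The representation `ρ` is strongly irreducible: its restriction to each open subgroup is
irreducible. -/
def IsStronglyIrreducible {G : Type} [Group G] [TopologicalSpace G] {n : ℕ} {k : Type} [Field k]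
    (ρ : G →* Matrix.GeneralLinearGroup (Fin n) k) : Prop :=
  ∀ H : Subgroup G, IsOpen (H : Set G) → IsIrreducible (ρ.comp H.subtype)

/-- `ρ` is a subquotient of the representation of `G` by the matrices `M(g)`: there are a subspace
`U` stable under all `M(g)` and an equivariant surjective linear map from `U` to the space of
`ρ`. -/
def IsSubquotient {G : Type} [Group G] {n : ℕ} {k : Type} [Field k] {ι : Type} [Fintype ι]
    (ρ : G →* Matrix.GeneralLinearGroup (Fin n) k) (M : G → Matrix ι ι k) : Prop :=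
  ∃ (U : Submodule k (ι → k)) (hU : ∀ g, ∀ u ∈ U, (M g).mulVec u ∈ U)
    (π : U →ₗ[k] (Fin n → k)), Function.Surjective π ∧
    ∀ g (u : U), π ⟨(M g).mulVec u, hU g u u.2⟩ =
      (ρ g : Matrix (Fin n) (Fin n) k).mulVec (π u)

/-- The matrices of the representation `W^{⊗ a} ⊗ (W^∨)^{⊗ b}` in the standard basis: the
coefficients are products of `a` coefficients of `W(g)` and `b` coefficients of the transpose of
`W(g⁻¹)`. -/
def tensorConstruction {G : Type} [Group G] {m : ℕ} {k : Type} [Field k]
    (W : G →* Matrix.GeneralLinearGroup (Fin m) k) (a b : ℕ) (g : G) :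
    Matrix ((Fin a → Fin m) × (Fin b → Fin m)) ((Fin a → Fin m) × (Fin b → Fin m)) k :=
  Matrix.of fun I J => (∏ s, (W g : Matrix (Fin m) (Fin m) k) (I.1 s) (J.1 s)) *
    ∏ t, (W g⁻¹ : Matrix (Fin m) (Fin m) k) (J.2 t) (I.2 t)

open Classical in
/-- The matrices of the permutation representation `k[G/Γ]` of `G` on the cosets of `Γ`. -/
noncomputable def cosetMatrix (k : Type) [Field k] {G : Type} [Group G] (Γ : Subgroup G) (g : G) :
    Matrix (G ⧸ Γ) (G ⧸ Γ) k :=
  Matrix.of fun x y => if x = g • y then 1 else 0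

/-- **Theorem.** Let `ρ` be a continuous strongly irreducible representation and `W` a continuous
representation of the absolute Galois group of the number field `K`, over an algebraically closed
Hausdorff topological field of characteristic zero. Let `N ≥ 1` and let `S` be a set of primes of `K`
of positive upper density, such that for each `v` in `S` there is a Frobenius element `σ` at `v`
with the following property: for each eigenvalue `α` of `ρ(σ)` there is an eigenvalue `β` of `W(σ)`
with `α ^ N = β ^ N`. Then there are an open normal subgroup `Γ` and `d ≥ 1` such that for all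
`a ≡ b` modulo `d` (for instance `a = b = 1`, or `a = d`, `b = 0`) every irreducible subquotient of
`ρ^{⊗ a} ⊗ (ρ^∨)^{⊗ b}` is a subquotient of `W^{⊗ a'} ⊗ (W^∨)^{⊗ b'} ⊗ k[Gal(K̄/K)/Γ]` for some
`a'` and `b'`. -/
theorem result {n m N : ℕ} (hn : 0 < n) (hN : 0 < N) (K : Type) [Field K] [NumberField K]
    (k : Type) [Field k] [CharZero k] [IsAlgClosed k] [TopologicalSpace k] [IsTopologicalRing k]
    [T2Space k]
    (ρ : AbsGal K →* Matrix.GeneralLinearGroup (Fin n) k)
    (hρ : Continuous fun g => (ρ g : Matrix (Fin n) (Fin n) k)) (hirr : IsStronglyIrreducible ρ)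
    (W : AbsGal K →* Matrix.GeneralLinearGroup (Fin m) k)
    (hW : Continuous fun g => (W g : Matrix (Fin m) (Fin m) k))
    (S : Set (HeightOneSpectrum (𝓞 K))) (hS : 0 < upperDensity S)
    (h : ∀ v ∈ S, ∃ σ, IsFrobenius v σ ∧
      ∀ α : k, (ρ σ : Matrix (Fin n) (Fin n) k).charpoly.IsRoot α →
        ∃ β : k, (W σ : Matrix (Fin m) (Fin m) k).charpoly.IsRoot β ∧ α ^ N = β ^ N) :
    ∃ (Γ : Subgroup (AbsGal K)) (_ : Fintype (AbsGal K ⧸ Γ)) (d : ℕ),
      Γ.Normal ∧ IsOpen (Γ : Set (AbsGal K)) ∧ 0 < d ∧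
      ∀ a b : ℕ, a ≡ b [MOD d] →
      ∀ (r : ℕ) (R : AbsGal K →* Matrix.GeneralLinearGroup (Fin r) k), 0 < r →
        IsIrreducible R → IsSubquotient R (tensorConstruction ρ a b) →
        ∃ a' b' : ℕ,
          IsSubquotient R fun g => tensorConstruction W a' b' g ⊗ₖ cosetMatrix k Γ g := by
  classical
  have hset : ∀ x : ℕ, {v : HeightOneSpectrum (𝓞 K) | Ideal.absNorm v.asIdeal ≤ x} =
      (Pool.Agent.W540.BE.upto K x : Set (HeightOneSpectrum (𝓞 K))) := by
    intro x
    ext v
    rw [Set.mem_ofPred_eq, Finset.mem_coe, Pool.Agent.W540.BE.mem_upto]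
    rfl
  have hset2 : ∀ x : ℕ, {v : HeightOneSpectrum (𝓞 K) | Ideal.absNorm v.asIdeal ≤ x ∧ v ∈ S} =
      (((Pool.Agent.W540.BE.upto K x).filter fun v => v ∈ S :
        Finset (HeightOneSpectrum (𝓞 K))) : Set (HeightOneSpectrum (𝓞 K))) := by
    intro x
    ext v
    rw [Set.mem_ofPred_eq, Finset.mem_coe, Finset.mem_filter, Pool.Agent.W540.BE.mem_upto]
    rfl
  have hfreq := frequently_lt_of_lt_limsup (f := atTop) (u := fun x : ℕ =>
    ({v : HeightOneSpectrum (𝓞 K) | Ideal.absNorm v.asIdeal ≤ x ∧ v ∈ S}.ncard : ℝ) /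
    {v : HeightOneSpectrum (𝓞 K) | Ideal.absNorm v.asIdeal ≤ x}.ncard)
    (IsCoboundedUnder.of_frequently_ge (a := 0)
      (Frequently.of_forall fun x => by positivity)) (half_lt_self hS)
  refine Pool.Agent.TH119.PP.main hn hN ρ hρ hirr W hW S (upperDensity S / 2) (half_pos hS) ?_ ?_
  · refine hfreq.mono fun x hx => ?_
    rw [hset, hset2, Set.ncard_coe_finset, Set.ncard_coe_finset] at hx
    refine ⟨(Pool.Agent.W540.BE.upto K x).filter fun v => v ∈ S, fun v hv => ?_, ?_⟩
    · rw [Finset.mem_filter, Pool.Agent.W540.BE.mem_upto] at hv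
      exact hv
    · rcases Nat.eq_zero_or_pos (Pool.Agent.W540.BE.upto K x).card with h0 | h0
      · rw [h0, Nat.cast_zero, mul_zero]
        positivity
      · have h1 : (0 : ℝ) < (Pool.Agent.W540.BE.upto K x).card := by exact_mod_cast h0
        exact ((lt_div_iff₀ h1).1 hx).le
  · intro v hv
    obtain ⟨σ, hσ, hroots⟩ := h v hv
    refine ⟨σ, hσ, fun α hα => ?_⟩
    obtain ⟨β, hβ, hαβ⟩ := hroots α (Polynomial.mem_roots'.1 hα).2
    exact ⟨β, Polynomial.mem_roots'.2 ⟨(Matrix.charpoly_monic _).ne_zero, hβ⟩, hαβ⟩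

end Pool.Agent.Results.MP_f68ac8_nt.PositiveProportion
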