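import Pool.Agent.TH831.OE.Zt14

/-!
# Representations of rank two which are potentially unramified at `p`

Let `S` be a finite set of primes and `p` an odd prime, which may or may not be in `S`. Let `A` be a
discrete valuation ring of characteristic `0` with finite residue field, in which `p` has valuation
`e ≥ 1`, and let `ρ : Gal(ℚbar/ℚ) → GL_2(A)` be continuous, unramified outside `S` and unipotent
modulo the maximal ideal. If `p` is in `S`, assume that the inertia groups at `p` have finite image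
(so that `ρ` is de Rham at `p` with Hodge-Tate weights zero). Under explicit conditions on the power
residue relations between the primes in `S`, the image of `ρ` is finite. There are no conditions on
`e`, on the inertia groups at the primes different from `p` or on the powers of `p` dividing
`l - 1`, `l ∈ S`. If `p` is not in `S`, and if `GL_2(A)` has no elements of order `p` or if
the inertia groups act unipotently, then `ρ` is even trivial, under weaker conditions. The primes
`7, 13, 31, 61` and `3, 7, 13` are examples for `p = 3`.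
-/

set_option autoImplicit false

open NumberField Matrix IsLocalRing

namespace Pool.Agent.Results.MP_f68ac8_nt.RankTwoWeightZero

/-- `ρ` is unramified at all primes that do not lie above a prime number in `S` (in particular at
the primes above `p`, if `p` is not in `S`). -/
def UnramifiedOutside {A : Type} [CommRing A] (S : Finset ℕ)
    (ρ : Gal(AlgebraicClosure ℚ/ℚ) →* GL (Fin 2) A) : Prop :=
  ∀ P : Ideal (𝓞 (AlgebraicClosure ℚ)), P.IsMaximal →
    (∀ l ∈ S, (l : 𝓞 (AlgebraicClosure ℚ)) ∉ P) →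
      ∀ τ : Gal(AlgebraicClosure ℚ/ℚ), (∀ x : 𝓞 (AlgebraicClosure ℚ), τ • x - x ∈ P) → ρ τ = 1

/-- The inertia groups at the primes above `p` have finite image under `ρ`. -/
def FiniteInertiaAt {A : Type} [CommRing A] (p : ℕ)
    (ρ : Gal(AlgebraicClosure ℚ/ℚ) →* GL (Fin 2) A) : Prop :=
  ∀ P : Ideal (𝓞 (AlgebraicClosure ℚ)), P.IsMaximal → (p : 𝓞 (AlgebraicClosure ℚ)) ∈ P →
    (ρ '' {τ | ∀ x : 𝓞 (AlgebraicClosure ℚ), τ • x - x ∈ P}).Finite

/-- Every `ρ g` is unipotent modulo the maximal ideal: some power of `ρ g - 1` has all entries in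
the maximal ideal. -/
def ResiduallyUnipotent {A : Type} [CommRing A] [IsLocalRing A]
    (ρ : Gal(AlgebraicClosure ℚ/ℚ) →* GL (Fin 2) A) : Prop :=
  ∀ g, ∃ M : ℕ, ∀ i j, (((ρ g : Matrix (Fin 2) (Fin 2) A) - 1) ^ M) i j ∈ maximalIdeal A

/-- The members of `S` congruent to `1` modulo `p`. -/
def Tame (p : ℕ) (S : Finset ℕ) : Finset ℕ := S.filter fun l => p ∣ l - 1

/-- The inertia groups at the primes above the members of `Tame p S` act unipotently. -/
def UnipotentInertia {A : Type} [CommRing A] (p : ℕ) (S : Finset ℕ)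
    (ρ : Gal(AlgebraicClosure ℚ/ℚ) →* GL (Fin 2) A) : Prop :=
  ∀ l ∈ Tame p S, ∀ P : Ideal (𝓞 (AlgebraicClosure ℚ)), P.IsMaximal →
    (l : 𝓞 (AlgebraicClosure ℚ)) ∈ P → ∀ τ : Gal(AlgebraicClosure ℚ/ℚ),
      (∀ x : 𝓞 (AlgebraicClosure ℚ), τ • x - x ∈ P) →
        ((ρ τ : Matrix (Fin 2) (Fin 2) A) - 1) ^ 2 = 0

/-- `q` is not a `p`-th power modulo the prime `l`, where `p` divides `l - 1`. -/
def NonResidue (p q l : ℕ) : Prop := (q : ZMod l) ^ ((l - 1) / p) ≠ 1

/-- There are at most three primes in `S` congruent to `1` modulo `p`; of any two of them one is not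
a `p`-th power modulo the other; of any three of them, the first two are not both `p`-th powers
modulo the third; and if there are exactly three, then for some order `j, k, l` of them
`k ^ ((j - 1) / q) * j ^ ((k - 1) / q)` is not a `p`-th power modulo `l`, where `q` is a power of `p`
dividing `j - 1`, `k - 1` and `l - 1` (necessarily the largest one). -/
def AtMostThree (p : ℕ) (S : Finset ℕ) : Prop :=
  (Tame p S).card ≤ 3 ∧
    (∀ k ∈ Tame p S, ∀ l ∈ Tame p S, k ≠ l → NonResidue p k l ∨ NonResidue p l k) ∧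
    (∀ j ∈ Tame p S, ∀ k ∈ Tame p S, ∀ l ∈ Tame p S, j ≠ k → j ≠ l → k ≠ l →
      NonResidue p j l ∨ NonResidue p k l) ∧
    ((Tame p S).card = 3 → ∃ r : ℕ, (∀ l ∈ Tame p S, p ^ r ∣ l - 1) ∧
      ∃ j ∈ Tame p S, ∃ k ∈ Tame p S, ∃ l ∈ Tame p S, j ≠ k ∧ j ≠ l ∧ k ≠ l ∧
        NonResidue p (k ^ ((j - 1) / p ^ r) * j ^ ((k - 1) / p ^ r)) l)

/-- The linking number of the distinct primes `q` and `j`, with respect to a homomorphism
`χ : (ℤ/j)ˣ → ℤ/p`, as an element of a field `K` of characteristic `p`: the value of `χ` at the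
class of `q` (and `0` if `j` divides `q`). -/
noncomputable def linking (K : Type) [Field K] {p : ℕ} (j q : ℕ)
    (χ : (ZMod j)ˣ →* Multiplicative (ZMod p)) : K :=
  open Classical in if h : Nat.Coprime q j then
    ((Multiplicative.toAdd (χ (ZMod.unitOfCoprime q h))).val : K) else 0

/-- Characters of `Gal(ℚbar/ℚ)` with values in `K` unramified outside `S` are given by vectors
`(x_l)`, where `l` runs through `Tame p S`; the value at a Frobenius element at `l` is
`∑ λ_lj x_j` up to a multiple of `x_l`. The condition says: there are no two nonzero characters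
`x`, `y` such that each of them is trivial on the decomposition groups at all primes at which the
other one is ramified. -/
def NoPair (K : Type) [Field K] (p : ℕ) (S : Finset ℕ)
    (χ : ∀ j : ℕ, (ZMod j)ˣ →* Multiplicative (ZMod p)) : Prop :=
  ∀ x y : ℕ → K, (∀ l ∈ Tame p S, x l * y l = 0) →
    (∀ l ∈ Tame p S, x l * ∑ j ∈ Tame p S, linking K j l (χ j) * y j = 0) →
    (∀ l ∈ Tame p S, y l * ∑ j ∈ Tame p S, linking K j l (χ j) * x j = 0) →
    (∀ l ∈ Tame p S, x l = 0) ∨ (∀ l ∈ Tame p S, y l = 0)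

/-- Characters of `Gal(ℚbar/ℚ)` with values in `K` unramified outside `S` are given by a vector
`(x_l)`, where `l` runs through `Tame p S`, and, if `p` is in `S`, an element `a` for the prime `p`;
the value at a Frobenius element at `l` is `∑ λ_lj x_j + ((l - 1) / p) a` up to a multiple of `x_l`,
and the value at a Frobenius element at `p` is `∑ λ_pj x_j` up to a multiple of `a`. The condition
says: any two characters `(x, a)`, `(y, b)` such that `x_l y(Frob_l) = y_l x(Frob_l)` for all `l` in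
`Tame p S` and `a y(Frob_p) = b x(Frob_p)` (this is the vanishing of the cup product, with a
condition at `p`) are linearly dependent. -/
def NoPlane (K : Type) [Field K] (p : ℕ) (S : Finset ℕ)
    (χ : ∀ j : ℕ, (ZMod j)ˣ →* Multiplicative (ZMod p)) : Prop :=
  ∀ (x y : ℕ → K) (a b : K), (p ∉ S → a = 0 ∧ b = 0) →
    (∀ l ∈ Tame p S,
      x l * (∑ j ∈ Tame p S, linking K j l (χ j) * y j + (((l - 1) / p : ℕ) : K) * b) =
      y l * (∑ j ∈ Tame p S, linking K j l (χ j) * x j + (((l - 1) / p : ℕ) : K) * a)) →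
    a * ∑ j ∈ Tame p S, linking K j p (χ j) * y j =
      b * ∑ j ∈ Tame p S, linking K j p (χ j) * x j →
    ∃ c d : K, (c ≠ 0 ∨ d ≠ 0) ∧ c * a = d * b ∧ ∀ l ∈ Tame p S, c * x l = d * y l

/-- Whenever `T_l`, `l` in `Tame p S`, are two by two matrices over `K` with `T_l ^ 2 = 0`, with
`T_l = 0` if `p ^ r` does not divide `l - 1`, and with
`[∑ λ_lj T_j, T_l] = ((l - 1) / p ^ r) T_l` otherwise, then all `T_l` kill a common nonzero
vector. -/
def NoTuple (K : Type) [Field K] (p r : ℕ) (S : Finset ℕ)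
    (χ : ∀ j : ℕ, (ZMod j)ˣ →* Multiplicative (ZMod p)) : Prop :=
  ∀ T : ℕ → Matrix (Fin 2) (Fin 2) K, (∀ l ∈ Tame p S, T l * T l = 0) →
    (∀ l ∈ Tame p S, ¬ p ^ r ∣ l - 1 → T l = 0) →
    (∀ l ∈ Tame p S, p ^ r ∣ l - 1 →
      (∑ j ∈ Tame p S, linking K j l (χ j) • T j) * T l -
        T l * (∑ j ∈ Tame p S, linking K j l (χ j) • T j) =
          (((l - 1) / p ^ r : ℕ) : K) • T l) →
    ∃ w : Fin 2 → K, w ≠ 0 ∧ ∀ l ∈ Tame p S, T l *ᵥ w = 0

/-- There are at most two primes in `S` congruent to `1` modulo `p`; if there is only one, `l`, then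
`l` is not congruent to `1` modulo `p ^ 2` or `p` is not a `p`-th power modulo `l`; if there are
two, `k` and `l`, then `χ_k(p) χ_l(k) (l - 1) / p` and `χ_l(p) χ_k(l) (k - 1) / p` are different
in `ℤ/p`. -/
def AtMostTwo (p : ℕ) [Fact p.Prime] (S : Finset ℕ)
    (χ : ∀ j : ℕ, (ZMod j)ˣ →* Multiplicative (ZMod p)) : Prop :=
  (Tame p S).card ≤ 2 ∧
    ((Tame p S).card = 1 → ∀ l ∈ Tame p S, ¬ p ^ 2 ∣ l - 1 ∨ (p : ZMod l) ^ ((l - 1) / p) ≠ 1) ∧
    ∀ k ∈ Tame p S, ∀ l ∈ Tame p S, k ≠ l →
      linking (ZMod p) k p (χ k) * linking (ZMod p) l k (χ l) * (((l - 1) / p : ℕ) : ZMod p) ≠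
        linking (ZMod p) l p (χ l) * linking (ZMod p) k l (χ k) * (((k - 1) / p : ℕ) : ZMod p)

/-! ### Translation -/

theorem linking_eq {K : Type} [Field K] {p : ℕ} [hp : Fact p.Prime] [CharP K p] {j q : ℕ}
    (χ : (ZMod j)ˣ →* Multiplicative (ZMod p)) (x : (ZMod j)ˣ) (hx : (x : ZMod j) = (q : ZMod j)) :
    linking K j q χ = ZMod.castHom (dvd_refl p) K (Multiplicative.toAdd (χ x)) := by
  have : NeZero p := ⟨hp.out.ne_zero⟩
  have h : Nat.Coprime q j := by
    rw [← ZMod.isUnit_iff_coprime, ← hx]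
    exact x.isUnit
  unfold linking
  rw [dif_pos h, ZMod.castHom_apply, ZMod.natCast_val]
  congr 3
  exact Units.ext (by rw [hx]; rfl)

theorem linking_cast {K : Type} [Field K] {p : ℕ} [hp : Fact p.Prime] [CharP K p] {j q : ℕ}
    (χ : (ZMod j)ˣ →* Multiplicative (ZMod p)) :
    linking K j q χ = ZMod.castHom (dvd_refl p) K (linking (ZMod p) j q χ) := by
  unfold linking
  split_ifs with h
  · rw [map_natCast]
  · rw [map_zero]

theorem dec : (1 : ZMod 3) * 2 * (((13 - 1) / 3 : ℕ) : ZMod 3) ≠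
    1 * 0 * (((7 - 1) / 3 : ℕ) : ZMod 3) := by decide

/-- The theorem. -/
theorem result (p : ℕ) [Fact p.Prime] (hp2 : p ≠ 2) (S : Finset ℕ) (hS : ∀ l ∈ S, l.Prime)
    (A : Type) [CommRing A] [IsDomain A] [IsDiscreteValuationRing A] [CharZero A]
    [TopologicalSpace A] (hA : IsAdic (maximalIdeal A)) (hfin : Finite (ResidueField A))
    (e : ℕ) (he : 1 ≤ e) (h0 : (p : A) ∈ maximalIdeal A ^ e)
    (h1 : (p : A) ∉ maximalIdeal A ^ (e + 1))
    (ρ : Gal(AlgebraicClosure ℚ/ℚ) →* GL (Fin 2) A) (hρ : Continuous ρ)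
    (hur : UnramifiedOutside S ρ) (hI : p ∈ S → FiniteInertiaAt p ρ)
    (hres : ResiduallyUnipotent ρ) :
    ((∃ χ : ∀ j : ℕ, (ZMod j)ˣ →* Multiplicative (ZMod p),
        (∀ l ∈ Tame p S, ∃ x, χ l x ≠ 1) ∧ (AtMostTwo p S χ ∨
          (NoPlane (ResidueField A) p S χ ∧
            ∀ r : ℕ, r ≠ 0 → NoTuple (ResidueField A) p r S χ))) → (Set.range ρ).Finite) ∧
    (p = 3 → (Tame p S = {7, 13} ∨
      (p ∉ S ∧ Tame p S = {7, 13, 31, 61} ∧ ¬ IsSquare (-1 : ResidueField A))) →
        (Set.range ρ).Finite) ∧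
    (p ∉ S → (AtMostThree p S ∨ ∃ χ : ∀ j : ℕ, (ZMod j)ˣ →* Multiplicative (ZMod p),
        (∀ l ∈ Tame p S, ∃ x, χ l x ≠ 1) ∧ NoPair (ResidueField A) p S χ ∧
          ∀ r : ℕ, r ≠ 0 ∨ e ≠ 1 → NoTuple (ResidueField A) p r S χ) →
      (¬ (p - 1) ∣ 2 * e ∨ (∀ M : Matrix (Fin 2) (Fin 2) A, M ^ p = 1 → M = 1) ∨
        UnipotentInertia p S ρ) → ∀ g, ρ g = 1) := by
  classical
  have hp : p.Prime := Fact.out
  have hmem : ∀ l ∈ Tame p S, l ∈ S ∧ p ∣ l - 1 := fun l hl => Finset.mem_filter.1 hl
  have hS1 : ∀ l ∈ Tame p S, l.Prime ∧ p ∣ l - 1 := fun l hl =>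
    ⟨hS l (hmem l hl).1, (hmem l hl).2⟩
  have hT1 : ∀ l ∈ Tame p S, l ≠ 1 := fun l hl => (hS1 l hl).1.ne_one
  have h1T : (1 : ℕ) ∉ Tame p S := fun h => hT1 1 h rfl
  have hpT : ∀ l ∈ Tame p S, l ≠ p := by
    rintro l hl rfl
    have h1 := (hS1 l hl).2
    have h2 := hp.two_le
    have := Nat.le_of_dvd (by omega) h1
    omega
  have hpm : (p : A) ∈ maximalIdeal A := Ideal.pow_le_self (by omega) h0
  have hpκ := TH831.OE.natCast_zero_iff hp hpm
  have hchar : CharP (ResidueField A) p := TH831.OE.charP_res hp hpm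
  have hpπ := (TH831.OE.mem_max_iff (p : A)).1 hpm
  have h2κ : (2 : ResidueField A) ≠ 0 := by
    intro h
    have h4 : ((2 : ℕ) : ResidueField A) = 0 := by exact_mod_cast h
    have := Nat.le_of_dvd two_pos ((hpκ 2).1 h4)
    have := hp.two_le
    omega
  obtain ⟨c, hc⟩ := (TH831.OE.mem_pow_iff e (p : A)).1 h0
  have hqc : (TH831.OE.bas A).q c ≠ 0 := by
    intro h
    obtain ⟨d, hd⟩ := ((TH831.OE.bas A).ker c).1 h
    apply h1
    rw [TH831.OE.mem_pow_iff]
    exact ⟨d, by rw [hc, hd]; ring⟩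
  have hcts := TH831.OE.cts_of_continuous hA hρ
  have hres' := TH831.OE.resU_of hres
  have hinj : Function.Injective (ZMod.castHom (dvd_refl p) (ResidueField A)) :=
    RingHom.injective _
  -- a prime above `p`
  obtain ⟨P0, hP0, hpP0, -⟩ := (W571.FM.main p hp).1
  have hod : ∀ ρ' : Gal(AlgebraicClosure ℚ/ℚ) →* GL (Fin 2) A,
      TH831.OE.ResU (TH831.OE.bas A) ρ' → ∃ ρ'' : Gal(AlgebraicClosure ℚ/ℚ) →* GL (Fin 2) A,
        TH831.OE.Rel ρ' ρ'' ∧ TH831.OE.Od (TH831.OE.bas A) 0 ρ'' := by
    intro ρ' hρ'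
    refine TH831.OE.exists_od_dvr hp hfin hpm fun g => ?_
    obtain ⟨N, β, hβ⟩ := hρ' g
    refine ⟨N, fun i j => ?_⟩
    rw [TH831.OE.mem_max_iff]
    have := congrFun (congrFun hβ i) j
    exact ⟨β i j, this⟩
  -- the inertia groups at `p` have finite image
  have hI' : FiniteInertiaAt p ρ := by
    by_cases hpS : p ∈ S
    · exact hI hpS
    · intro P hP hpP
      refine (Set.finite_singleton 1).subset ?_
      rintro _ ⟨τ, hτ, rfl⟩
      refine hur P hP (fun l hl hlP => hP.ne_top ?_) τ hτ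
      have hlp : l ≠ p := fun h => hpS (h ▸ hl)
      have hcop : IsCoprime (l : ℤ) (p : ℤ) := Nat.isCoprime_iff_coprime.2
        ((Nat.coprime_primes (hS l hl) hp).2 hlp)
      obtain ⟨u, v, huv⟩ := hcop
      rw [Ideal.eq_top_iff_one]
      have h5 : (1 : 𝓞 (AlgebraicClosure ℚ)) = (u : 𝓞 (AlgebraicClosure ℚ)) * (l : ℕ) +
          (v : 𝓞 (AlgebraicClosure ℚ)) * (p : ℕ) := by
        have := congrArg (fun z : ℤ => (z : 𝓞 (AlgebraicClosure ℚ))) huv
        push_cast at this
        exact this.symm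
      rw [h5]
      exact P.add_mem (P.mul_mem_left _ hlP) (P.mul_mem_left _ hpP)
  -- the general case, with a condition at `p`
  have gen : ∀ χ : ∀ j : ℕ, (ZMod j)ˣ →* Multiplicative (ZMod p),
      (∀ l ∈ Tame p S, ∃ x, χ l x ≠ 1) →
      TH831.OE.NI (ResidueField A) (insert 1 (Tame p S)) (fun l j => if j = 1 then
        (((l - 1) / p : ℕ) : ResidueField A) else
          linking (ResidueField A) j (if l = 1 then p else l) (χ j)) →
      (∀ r : ℕ, r ≠ 0 → NoTuple (ResidueField A) p r S χ) → (Set.range ρ).Finite := by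
    intro χ hχ hNI hNT
    have hS' : ∀ l ∈ S.erase p, l.Prime ∧ l ≠ p := fun l hl =>
      ⟨hS l (Finset.mem_of_mem_erase hl), Finset.ne_of_mem_erase hl⟩
    have hT' : (S.erase p).filter (fun l => p ∣ l - 1) = Tame p S := by
      ext l
      rw [Finset.mem_filter, Finset.mem_erase]
      constructor
      · rintro ⟨⟨-, h1⟩, h2⟩
        exact Finset.mem_filter.2 ⟨h1, h2⟩
      · intro h
        exact ⟨⟨hpT l h, (hmem l h).1⟩, (hmem l h).2⟩
    refine TH831.OE.wfin hp2 (S.erase p) hS' hA hfin hpm hρ hres ?_ hI' χ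
      (fun l hl hpl => hχ l (Finset.mem_filter.2 ⟨Finset.mem_of_mem_erase hl, hpl⟩))
      (ZMod.castHom (dvd_refl p) (ResidueField A))
      (fun l j => if j = 1 then (((l - 1) / p : ℕ) : ResidueField A) else
          linking (ResidueField A) j (if l = 1 then p else l) (χ j)) ?_ ?_ ?_ (hT' ▸ hNI)
      (Or.inr ?_)
    · rintro g ⟨P, hP, h2, h3, h4⟩
      refine hur P hP (fun l hl => ?_) g h4
      by_cases hlp : l = p
      · rw [hlp]
        exact h3
      · exact h2 l (Finset.mem_erase.2 ⟨hlp, hl⟩)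
    · intro l hl hpl j hj hpj hjl x hx
      show (if j = 1 then _ else _) = _
      rw [if_neg (hS' j hj).1.ne_one, if_neg (hS' l hl).1.ne_one]
      exact linking_eq (χ j) x hx
    · intro j hj hpj x hx
      show (if j = 1 then _ else _) = _
      rw [if_neg (hS' j hj).1.ne_one, if_pos rfl]
      exact linking_eq (χ j) x hx
    · intro l hl hpl
      exact if_pos rfl
    · rw [hT']
      intro r hr T hsq hz hrel
      refine hNT r hr T hsq hz fun l hl hd => ?_
      have hs : ∑ j ∈ Tame p S, (if j = 1 then (((l - 1) / p : ℕ) : ResidueField A) else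
          linking (ResidueField A) j (if l = 1 then p else l) (χ j)) • T j =
          ∑ j ∈ Tame p S, linking (ResidueField A) j l (χ j) • T j :=
        Finset.sum_congr rfl fun j hj => by rw [if_neg (hT1 j hj), if_neg (hT1 l hl)]
      have := hrel l hl hd
      rwa [← hs]
  -- at most two primes
  have two : ∀ χ : ∀ j : ℕ, (ZMod j)ˣ →* Multiplicative (ZMod p),
      (∀ l ∈ Tame p S, ∃ x, χ l x ≠ 1) → (Tame p S).card ≤ 2 →
      ((Tame p S).card = 1 → ∀ l ∈ Tame p S, ¬ p ^ 2 ∣ l - 1 ∨
        (p : ZMod l) ^ ((l - 1) / p) ≠ 1) →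
      (∀ k ∈ Tame p S, ∀ l ∈ Tame p S, k ≠ l →
        linking (ZMod p) k p (χ k) * linking (ZMod p) l k (χ l) *
          (((l - 1) / p : ℕ) : ZMod p) ≠
        linking (ZMod p) l p (χ l) * linking (ZMod p) k l (χ k) *
          (((k - 1) / p : ℕ) : ZMod p)) → (Set.range ρ).Finite := by
    intro χ hχ hcard hone htwo
    -- the conditions on the pairs
    have hpair : ∀ k ∈ Tame p S, ∀ l ∈ Tame p S, k ≠ l →
        linking (ZMod p) k l (χ k) ≠ 0 ∨ linking (ZMod p) l k (χ l) ≠ 0 := by
      intro k hk l hl hkl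
      by_contra hcon
      push Not at hcon
      apply htwo k hk l hl hkl
      rw [hcon.1, hcon.2, mul_zero, mul_zero, zero_mul, zero_mul]
    have hsmall : ∀ χ' : ∀ j : ℕ, (ZMod j)ˣ →* Multiplicative (ZMod p),
        (∀ k ∈ Tame p S, ∀ l ∈ Tame p S, k ≠ l →
          linking (ZMod p) k l (χ' k) ≠ 0 ∨ linking (ZMod p) l k (χ' l) ≠ 0) →
        ∀ r : ℕ, r ≠ 0 → NoTuple (ResidueField A) p r S χ' := by
      intro χ' hpair' r _
      have h3 : ∀ j ∈ Tame p S, ∀ k ∈ Tame p S, ∀ l ∈ Tame p S, j ≠ k → j ≠ l → k ≠ l →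
          False := by
        intro j hj k hk l hl hjk hjl hkl
        have : ({j, k, l} : Finset ℕ).card = 3 := Finset.card_eq_three.2
          ⟨j, k, l, hjk, hjl, hkl, rfl⟩
        have hsub : ({j, k, l} : Finset ℕ) ⊆ Tame p S := by
          intro m hm
          simp only [Finset.mem_insert, Finset.mem_singleton] at hm
          rcases hm with rfl | rfl | rfl <;> assumption
        have := Finset.card_le_card hsub
        omega
      refine TH831.OE.nt_three (lam := fun l j => linking (ResidueField A) j l (χ' j)) hp h2κ hpκ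
        hS1 (by omega) (fun k hk l hl hkl => ?_)
        (fun j hj k hk l hl n1 n2 n3 => (h3 j hj k hk l hl n1 n2 n3).elim) r
        (Or.inr fun h => by omega)
      show linking (ResidueField A) k l (χ' k) ≠ 0 ∨ linking (ResidueField A) l k (χ' l) ≠ 0
      rw [linking_cast (K := ResidueField A) (j := k) (q := l),
        linking_cast (K := ResidueField A) (j := l) (q := k), Ne, Ne, map_eq_zero_iff _ hinj,
        map_eq_zero_iff _ hinj]
      exact hpair' k hk l hl hkl
    have hcases : (Tame p S).card = 0 ∨ (Tame p S).card = 1 ∨ (Tame p S).card = 2 := by omega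
    rcases hcases with h0 | h1 | h2
    · refine gen χ hχ ?_ (hsmall χ hpair)
      rw [Finset.card_eq_zero.1 h0]
      exact TH831.OE.ni_single 1 _
    · obtain ⟨l, hl⟩ := Finset.card_eq_one.1 h1
      have hlT : l ∈ Tame p S := by rw [hl]; exact Finset.mem_singleton_self l
      obtain ⟨χl, hχl, hχl'⟩ := W134.FM.exists_quot hp (hS1 l hlT).1 (hS1 l hlT).2
      have hne1 := hT1 l hlT
      set χ' : ∀ j : ℕ, (ZMod j)ˣ →* Multiplicative (ZMod p) :=
        fun j => if h : j = l then h ▸ χl else 1 with hχ'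
      have hχ'l : χ' l = χl := by rw [hχ']; exact dif_pos rfl
      have hall : ∀ k ∈ Tame p S, k = l := fun k hk => by
        rw [hl] at hk
        exact Finset.mem_singleton.1 hk
      refine gen χ' (fun k hk => ?_) ?_ (hsmall χ' fun k hk m hm hkm =>
        absurd ((hall k hk).trans (hall m hm).symm) hkm)
      · rw [hall k hk, hχ'l]
        exact hχl'
      · rw [hl]
        refine TH831.OE.ni_pair (Ne.symm hne1) ?_
        show (if l = 1 then _ else linking (ResidueField A) l (if 1 = 1 then p else 1) (χ' l)) ≠ 0 ∨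
          (if (1 : ℕ) = 1 then (((l - 1) / p : ℕ) : ResidueField A) else _) ≠ 0
        rw [if_neg hne1, if_pos rfl, if_pos rfl, hχ'l]
        rcases hone h1 l hlT with h | h
        · right
          rw [Ne, hpκ]
          intro hd
          apply h
          obtain ⟨a, ha⟩ := (hS1 l hlT).2
          rw [ha, Nat.mul_div_cancel_left _ hp.pos] at hd
          obtain ⟨b, hb⟩ := hd
          exact ⟨b, by rw [ha, hb, pow_two, mul_assoc]⟩
        · left
          have hcop : Nat.Coprime p l := (Nat.coprime_primes hp (hS1 l hlT).1).2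
            (Ne.symm (hpT l hlT))
          intro h5
          rw [linking_eq χl (ZMod.unitOfCoprime p hcop) (ZMod.coe_unitOfCoprime p hcop),
            map_eq_zero_iff _ hinj] at h5
          have h6 : χl (ZMod.unitOfCoprime p hcop) = 1 := Multiplicative.toAdd.injective h5
          rw [hχl, Units.ext_iff, Units.val_pow_eq_pow_val, ZMod.coe_unitOfCoprime,
            Units.val_one] at h6
          exact h h6
    · obtain ⟨k, l, hkl, hT⟩ := Finset.card_eq_two.1 h2
      have hk : k ∈ Tame p S := by rw [hT]; simp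
      have hl : l ∈ Tame p S := by rw [hT]; simp
      refine gen χ hχ ?_ (hsmall χ hpair)
      rw [hT]
      refine TH831.OE.ni_triple (Ne.symm (hT1 k hk)) (Ne.symm (hT1 l hl)) hkl ?_
      have hk1 := hT1 k hk
      have hl1 := hT1 l hl
      simp only [if_neg hk1, if_neg hl1, if_true]
      rw [linking_cast (K := ResidueField A) (j := k) (q := p),
        linking_cast (K := ResidueField A) (j := l) (q := k),
        linking_cast (K := ResidueField A) (j := l) (q := p),
        linking_cast (K := ResidueField A) (j := k) (q := l),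
        ← map_natCast (ZMod.castHom (dvd_refl p) (ResidueField A)) ((l - 1) / p),
        ← map_natCast (ZMod.castHom (dvd_refl p) (ResidueField A)) ((k - 1) / p),
        ← map_mul, ← map_mul, ← map_mul, ← map_mul]
      exact fun h => htwo k hk l hl hkl (hinj h)
  -- `p` not in `S`
  have tame : p ∉ S → ∀ χ : ∀ j : ℕ, (ZMod j)ˣ →* Multiplicative (ZMod p),
      (∀ l ∈ Tame p S, ∃ x, χ l x ≠ 1) →
      TH831.OE.NI (ResidueField A) (Tame p S) (fun l j => linking (ResidueField A) j l (χ j)) →
      (∀ r : ℕ, r ≠ 0 → NoTuple (ResidueField A) p r S χ) → (Set.range ρ).Finite := by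
    intro hpS χ hχ hNI htuple
    have hS' : ∀ l ∈ S, l.Prime ∧ l ≠ p := fun l hl => ⟨hS l hl, fun h => hpS (h ▸ hl)⟩
    obtain ⟨d⟩ := TH831.OE.exists_dat hp2 S hS' χ
      (fun l hl hpl => hχ l (Finset.mem_filter.2 ⟨hl, hpl⟩)) P0 hP0 hpP0
    obtain ⟨A', hγ, hτ, hσ, -⟩ := TH831.OE.exists_tameAr hS' hP0 hpP0 d
      (ZMod.castHom (dvd_refl p) (ResidueField A))
      (fun l j => linking (ResidueField A) j l (χ j))
      (fun l _ _ j _ _ _ x hx => linking_eq (χ j) x hx)
    exact TH831.OE.zfin (B := TH831.OE.bas A) hp2 hpκ he hc hqc hS' d hNI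
      (fun r hr => htuple r hr) A' hτ hσ hcts hres'
      (fun g ⟨P, hP, h2, h3⟩ => hur P hP h2 g h3) hod
  refine ⟨?_, ?_, fun hpS hX hU => ?_⟩
  · rintro ⟨χ, hχ, ⟨h1, h2, h3⟩ | ⟨hplane, htuple⟩⟩
    · exact two χ hχ h1 h2 h3
    by_cases hpS : p ∈ S
    · refine gen χ hχ ?_ htuple
      intro x y hxy
      have hs : ∀ (l : ℕ) (z : ℕ → ResidueField A),
          ∑ j ∈ insert 1 (Tame p S), (if j = 1 then (((l - 1) / p : ℕ) : ResidueField A) else
            linking (ResidueField A) j (if l = 1 then p else l) (χ j)) * z j =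
          ∑ j ∈ Tame p S, linking (ResidueField A) j (if l = 1 then p else l) (χ j) * z j +
            (((l - 1) / p : ℕ) : ResidueField A) * z 1 := by
        intro l z
        rw [Finset.sum_insert h1T, if_pos rfl, add_comm]
        congr 1
        exact Finset.sum_congr rfl fun j hj => by rw [if_neg (hT1 j hj)]
      have h5 := hxy 1 (Finset.mem_insert_self _ _)
      rw [hs, hs, if_pos rfl, Nat.sub_self, Nat.zero_div, Nat.cast_zero, zero_mul, zero_mul,
        add_zero, add_zero] at h5
      obtain ⟨c, d, hcd, h6, h7⟩ := hplane x y (x 1) (y 1) (fun h => absurd hpS h)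
        (fun l hl => by
          have h8 := hxy l (Finset.mem_insert_of_mem hl)
          rwa [hs, hs, if_neg (hT1 l hl)] at h8) h5
      refine ⟨c, d, hcd, fun l hl => ?_⟩
      rcases Finset.mem_insert.1 hl with rfl | hl
      · exact h6
      · exact h7 l hl
    · refine tame hpS χ hχ (fun x y hxy => ?_) htuple
      obtain ⟨c, d, hcd, -, h7⟩ := hplane x y 0 0 (fun _ => ⟨rfl, rfl⟩)
        (fun l hl => by rw [mul_zero, add_zero, add_zero]; exact hxy l hl)
        (by rw [zero_mul, zero_mul])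
      exact ⟨c, d, hcd, h7⟩
  · -- the examples
    rintro h1 (h2 | ⟨hpS, hT, hm⟩)
    · subst h1
      choose χ hχ using TH831.OE.exists_chi713
      have hcard : (Tame 3 S).card = 2 := by rw [h2]; decide
      have e : ∀ (j q : ℕ) (c : ZMod 3), Nat.Coprime q j →
          (∀ x : (ZMod j)ˣ, (x : ZMod j) = (q : ZMod j) → Multiplicative.toAdd (χ j x) = c) →
          linking (ZMod 3) j q (χ j) = c := by
        intro j q c hcop h
        rw [linking_eq (χ j) (ZMod.unitOfCoprime q hcop) (ZMod.coe_unitOfCoprime q hcop),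
          h _ (ZMod.coe_unitOfCoprime q hcop)]
        exact congrFun (congrArg DFunLike.coe (ZMod.castHom_self (n := 3))) c
      have e1 := e 7 3 1 (by decide) ((hχ 7).2.1 rfl)
      have e2 := e 7 13 0 (by decide) ((hχ 7).2.2.1 rfl)
      have e3 := e 13 3 1 (by decide) ((hχ 13).2.2.2.1 rfl)
      have e4 := e 13 7 2 (by decide) ((hχ 13).2.2.2.2 rfl)
      refine two χ (fun l hl => (hχ l).1 (h2 ▸ hl)) hcard.le (fun h => by omega) ?_
      intro k hk l hl hkl
      rw [h2, Finset.mem_insert, Finset.mem_singleton] at hk hl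
      rcases hk with rfl | rfl <;> rcases hl with rfl | rfl
      · exact absurd rfl hkl
      · rw [e1, e2, e3, e4]
        exact dec
      · rw [e1, e2, e3, e4]
        exact dec.symm
      · exact absurd rfl hkl
    · subst h1
      choose χ hχ using TH831.OE.exists_chi4
      have h3 : (3 : ResidueField A) = 0 := by
        have := (hpκ 3).2 dvd_rfl
        exact_mod_cast this
      have htab : TH831.OE.Tab (fun l j => linking (ResidueField A) j l (χ j)) := by
        have hoff : ∀ l ∈ ({7, 13, 31, 61} : Finset ℕ), ∀ j ∈ ({7, 13, 31, 61} : Finset ℕ),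
            l ≠ j → linking (ResidueField A) j l (χ j) =
              ZMod.castHom (dvd_refl 3) (ResidueField A) (TH831.OE.tab l j) := by
          intro l hl j hj hlj
          have hcop : Nat.Coprime l j := by
            rw [← hT] at hl hj
            exact (Nat.coprime_primes (hS1 l hl).1 (hS1 j hj).1).2 hlj
          rw [linking_eq (χ j) (ZMod.unitOfCoprime l hcop) (ZMod.coe_unitOfCoprime l hcop),
            (hχ j).2 hj l hl hlj _ (ZMod.coe_unitOfCoprime l hcop)]
        have hdiag : ∀ l ∈ ({7, 13, 31, 61} : Finset ℕ),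
            linking (ResidueField A) l l (χ l) = 0 := by
          intro l hl
          unfold linking
          rw [dif_neg]
          rw [Nat.coprime_self]
          rw [← hT] at hl
          exact (hS1 l hl).1.ne_one
        have c0 : ZMod.castHom (dvd_refl 3) (ResidueField A) 0 = 0 := map_zero _
        have c1 : ZMod.castHom (dvd_refl 3) (ResidueField A) 1 = 1 := map_one _
        have c2 : ZMod.castHom (dvd_refl 3) (ResidueField A) 2 = 2 := map_ofNat _ 2
        refine ⟨hdiag 7 (by decide), ?_, ?_, ?_, ?_, hdiag 13 (by decide), ?_, ?_, ?_, ?_,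
          hdiag 31 (by decide), ?_, ?_, ?_, ?_, hdiag 61 (by decide)⟩
        · exact (hoff 7 (by decide) 13 (by decide) (by decide)).trans c2
        · exact (hoff 7 (by decide) 31 (by decide) (by decide)).trans c1
        · exact (hoff 7 (by decide) 61 (by decide) (by decide)).trans c1
        · exact (hoff 13 (by decide) 7 (by decide) (by decide)).trans c0
        · exact (hoff 13 (by decide) 31 (by decide) (by decide)).trans c2
        · exact (hoff 13 (by decide) 61 (by decide) (by decide)).trans c1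
        · exact (hoff 31 (by decide) 7 (by decide) (by decide)).trans c1
        · exact (hoff 31 (by decide) 13 (by decide) (by decide)).trans c0
        · exact (hoff 31 (by decide) 61 (by decide) (by decide)).trans c2
        · exact (hoff 61 (by decide) 7 (by decide) (by decide)).trans c2
        · exact (hoff 61 (by decide) 13 (by decide) (by decide)).trans c2
        · exact (hoff 61 (by decide) 31 (by decide) (by decide)).trans c0
      refine tame hpS χ (fun l hl => (hχ l).1 (hT ▸ hl)) ?_ (fun r hr => ?_)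
      · have := TH831.OE.ni_ex h3 hm htab
        rw [← hT] at this
        exact this
      · have := TH831.OE.nt_ex h3 htab hr
        rw [← hT] at this
        exact this
  · -- unipotence
    have hS' : ∀ l ∈ S, l.Prime ∧ l ≠ p := fun l hl => ⟨hS l hl, fun h => hpS (h ▸ hl)⟩
    have hU' : ∀ l ∈ S, p ∣ l - 1 → ∀ P : Ideal (𝓞 (AlgebraicClosure ℚ)), P.IsMaximal →
        (l : 𝓞 (AlgebraicClosure ℚ)) ∈ P → ∀ τ : Gal(AlgebraicClosure ℚ/ℚ),
          (∀ x : 𝓞 (AlgebraicClosure ℚ), τ • x - x ∈ P) →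
          (TH831.OE.mt (ρ τ) - 1) * (TH831.OE.mt (ρ τ) - 1) = 0 := by
      intro l hl hpl P hP hlP τ hτ
      have hnt : (∀ M : Matrix (Fin 2) (Fin 2) A, M ^ p = 1 → M = 1) →
          (TH831.OE.mt (ρ τ) - 1) * (TH831.OE.mt (ρ τ) - 1) = 0 := fun h =>
        TH831.OE.unip_of_nt hp2 hpκ hpπ h hcts hres' (hS' l hl).1 (Ne.symm (hS' l hl).2) hpl hP hlP
          hτ
      rcases hU with h | h | h
      · exact hnt fun M hM => TH831.OE.no_tors hp hp2 hpκ hc hqc h M hM
      · exact hnt h
      · have h3 := h l (Finset.mem_filter.2 ⟨hl, hpl⟩) P hP hlP τ hτ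
        rwa [pow_two] at h3
    have main : ∀ χ : ∀ j : ℕ, (ZMod j)ˣ →* Multiplicative (ZMod p),
        (∀ l ∈ Tame p S, ∃ x, χ l x ≠ 1) → NoPair (ResidueField A) p S χ →
        (∀ r : ℕ, r ≠ 0 ∨ e ≠ 1 → NoTuple (ResidueField A) p r S χ) → ∀ g, ρ g = 1 := by
      intro χ hχ hpair htuple
      obtain ⟨d⟩ := TH831.OE.exists_dat hp2 S hS' χ
        (fun l hl hpl => hχ l (Finset.mem_filter.2 ⟨hl, hpl⟩)) P0 hP0 hpP0
      obtain ⟨A', hγ, hτ, hσ, -⟩ := TH831.OE.exists_tameAr hS' hP0 hpP0 d
        (ZMod.castHom (dvd_refl p) (ResidueField A))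
        (fun l j => linking (ResidueField A) j l (χ j))
        (fun l _ _ j _ _ _ x hx => linking_eq (χ j) x hx)
      obtain ⟨hG, hline⟩ := TH831.OE.tame_line (B := TH831.OE.bas A) hp2 hpκ hpπ hS' d
        (TH831.OE.h0_of fun x y a1 a2 a3 => hpair x y a1 a2 a3)
        (fun k hk => TH831.OE.h1_zero hp hpκ hS1 he hc hqc (fun r hr => htuple r hr) hk)
        A' hτ hσ hcts hres' (fun g ⟨P, hP, h2, h3⟩ => hur P hP h2 g h3) hU'
        (TH831.OE.exists_od_dvr hp hfin hpm hres)
      exact TH831.OE.tame_zero A' trivial (fun l hl => (hS1 l hl).1.ne_one) hG hres' hline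
    rcases hX with ⟨hcard, hpair, hcol, hgen⟩ | ⟨χ, hχ, h3, h4⟩
    · -- at most three primes
      have e : ∀ j : ℕ, ∃ χ : (ZMod j)ˣ →* Multiplicative (ZMod p), j ∈ Tame p S →
          (∀ x, χ x = 1 ↔ x ^ ((j - 1) / p) = 1) ∧ ∃ x, χ x ≠ 1 := by
        intro j
        by_cases hj : j ∈ Tame p S
        · obtain ⟨h1, h2⟩ := hmem j hj
          obtain ⟨χ, hχ⟩ := W134.FM.exists_quot hp (hS j h1) h2
          exact ⟨χ, fun _ => hχ⟩
        · exact ⟨1, fun h => absurd h hj⟩
      choose χ hχ using e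
      have hinj : Function.Injective (ZMod.castHom (dvd_refl p) (ResidueField A)) :=
        RingHom.injective _
      -- units
      have hunit : ∀ j ∈ Tame p S, ∀ k ∈ Tame p S, k ≠ j → ∃ x : (ZMod j)ˣ,
          (x : ZMod j) = (k : ZMod j) := by
        intro j hj k hk hkj
        have hcop : Nat.Coprime k j := (Nat.coprime_primes (hS1 k hk).1 (hS1 j hj).1).2 hkj
        exact ⟨ZMod.unitOfCoprime k hcop, ZMod.coe_unitOfCoprime k hcop⟩
      have hne : ∀ j ∈ Tame p S, ∀ q ∈ Tame p S, q ≠ j → NonResidue p q j →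
          linking (ResidueField A) j q (χ j) ≠ 0 := by
        intro j hj q hq hqj h h5
        obtain ⟨x, hx⟩ := hunit j hj q hq hqj
        rw [linking_eq (χ j) x hx, map_eq_zero_iff _ hinj] at h5
        have h6 : χ j x = 1 := Multiplicative.toAdd.injective h5
        rw [(hχ j hj).1, Units.ext_iff, Units.val_pow_eq_pow_val, hx, Units.val_one] at h6
        exact h h6
      have hpair' : ∀ k ∈ Tame p S, ∀ l ∈ Tame p S, k ≠ l →
          linking (ResidueField A) k l (χ k) ≠ 0 ∨ linking (ResidueField A) l k (χ l) ≠ 0 := by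
        intro k hk l hl hkl
        rcases hpair k hk l hl hkl with h | h
        · exact Or.inr (hne l hl k hk hkl h)
        · exact Or.inl (hne k hk l hl (Ne.symm hkl) h)
      have hcol' : ∀ j ∈ Tame p S, ∀ k ∈ Tame p S, ∀ l ∈ Tame p S, j ≠ k → j ≠ l → k ≠ l →
          linking (ResidueField A) l j (χ l) ≠ 0 ∨ linking (ResidueField A) l k (χ l) ≠ 0 := by
        intro j hj k hk l hl hjk hjl hkl
        rcases hcol j hj k hk l hl hjk hjl hkl with h | h
        · exact Or.inl (hne l hl j hj hjl h)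
        · exact Or.inr (hne l hl k hk hkl h)
      refine main χ (fun l hl => (hχ l hl).2) ?_ ?_
      · intro x y a1 a2 a3
        exact TH831.OE.h0_three (lam := fun l j => linking (ResidueField A) j l (χ j)) hcard
          (fun k hk l hl hkl => hpair' k hk l hl hkl)
          (fun j hj k hk l hl n1 n2 n3 => hcol' j hj k hk l hl n1 n2 n3) x y a1 a2 a3
      · intro r _
        refine TH831.OE.nt_three (lam := fun l j => linking (ResidueField A) j l (χ j)) hp h2κ hpκ
          hS1 hcard (fun k hk l hl hkl => hpair' k hk l hl hkl)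
          (fun j hj k hk l hl n1 n2 n3 => hcol' j hj k hk l hl n1 n2 n3) r (Or.inr fun h3 => ?_)
        obtain ⟨r0, hr0, j, hj, k, hk, l, hl, n1, n2, n3, h5⟩ := hgen h3
        refine ⟨r0, hr0, j, hj, k, hk, l, hl, n1, n2, n3, ?_⟩
        obtain ⟨xj, hxj⟩ := hunit l hl j hj n2
        obtain ⟨xk, hxk⟩ := hunit l hl k hk n3
        show (((j - 1) / p ^ r0 : ℕ) : ResidueField A) * linking (ResidueField A) l k (χ l) +
          (((k - 1) / p ^ r0 : ℕ) : ResidueField A) * linking (ResidueField A) l j (χ l) ≠ 0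
        rw [linking_eq (χ l) xj hxj, linking_eq (χ l) xk hxk]
        intro h6
        have h7 : ZMod.castHom (dvd_refl p) (ResidueField A)
            ((((j - 1) / p ^ r0 : ℕ) : ZMod p) * Multiplicative.toAdd (χ l xk) +
            (((k - 1) / p ^ r0 : ℕ) : ZMod p) * Multiplicative.toAdd (χ l xj)) = 0 := by
          rw [map_add, map_mul, map_mul, map_natCast, map_natCast]
          exact h6
        rw [map_eq_zero_iff _ hinj] at h7
        have h8 : χ l (xk ^ ((j - 1) / p ^ r0) * xj ^ ((k - 1) / p ^ r0)) = 1 := by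
          apply Multiplicative.toAdd.injective
          rw [map_mul, map_pow, map_pow, toAdd_mul, toAdd_pow, toAdd_pow, nsmul_eq_mul,
            nsmul_eq_mul, toAdd_one]
          exact h7
        rw [(hχ l hl).1, Units.ext_iff, Units.val_pow_eq_pow_val, Units.val_mul,
          Units.val_pow_eq_pow_val, Units.val_pow_eq_pow_val, hxj, hxk, Units.val_one] at h8
        apply h5
        push_cast
        exact h8
    · exact main χ hχ h3 h4

end Pool.Agent.Results.MP_f68ac8_nt.RankTwoWeightZero
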