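import Pool.Agent.TH831.NA.NA9

/-!
# Tame representations of any dimension with coefficients in rings of p-adic integers

Let `p` be a prime, `p ^ m > 2`, and let `S` be a finite set of primes `l ≠ p` with
`p ^ (m + 1) ∤ l - 1`. Let `T` be the set of the `l ∈ S` with `p ^ m ∣ l - 1`, let
`λ l j = χ j (l)` be the linking numbers (for nontrivial `χ j : (ℤ/j)ˣ → ℤ/p`) and
`u l = (l - 1) / p ^ m` modulo `p`. Suppose that every subset `J` of `T` with at least three
elements (at least five, if `p = 2`) is admissible: this means one of the following.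

* There are `w l ∈ ℤ/p` with `w l * λ l j = w j * λ j l`, and `t l ∈ ℤ/p`, such that the numbers
  `λ l j - t l * (w j * u j)` vanish for some `l ∈ J` and all `j ∈ J \ {l}` but at most one, or
  vanish for all `l ∈ K`, `j ∈ J \ K` for a nonempty proper subset `K` on which `t` is a multiple
  of `u`, or are of the form `a l * c j` for all `l ≠ j` in `J`.
* `J = {a, b, c}` and `u b * λ a c + u a * λ b c ≠ 0`.
* There are no nonzero nilpotent `n × n` matrices `M l`, `l ∈ J`, over a field of characteristic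
  `p`, such that the commutator of `∑ j, λ l j • M j` and `M l` is `u l • M l`.

Then every continuous representation `Gal(ℚbar/ℚ) → GL_n(O)`, where `O` is the ring of integers of
a finite extension of `ℚ_p` (or any discrete valuation ring of characteristic zero and residue
characteristic `p`), which is unramified outside `S`, and trivial modulo `p ^ m` on the inertia
groups at the primes in `S`, is trivial.

For `p = 2` the first condition holds if some `l ∈ J` is a quadratic residue modulo all other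
members of `J` but at most one, or a nonresidue modulo all but at most one, or if the graph of the
pairs of nonresidues in `J` is a disjoint union or a join of two smaller graphs.

The graph form for `p = 2` and the case of triples (both for `ℤ_p`) are due to helper146
(`TameGraphsAtTwo`, `TameTriples`, now in `Pool/Agent/TH146/FM`).
-/

set_option autoImplicit false

open NumberField IsLocalRing

namespace Pool.Agent.Results.MP_f68ac8_nt.TameAllRanks

/-- The representation `ρ` of the absolute Galois group of `ℚ` is unramified at the prime ideal `P`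
of the ring of all algebraic integers: the inertia group at `P` acts trivially. -/
def UnramifiedAt {n : ℕ} {A : Type} [CommRing A] (ρ : Gal(AlgebraicClosure ℚ/ℚ) →* GL (Fin n) A)
    (P : Ideal (𝓞 (AlgebraicClosure ℚ))) : Prop :=
  ∀ τ : Gal(AlgebraicClosure ℚ/ℚ), (∀ x : 𝓞 (AlgebraicClosure ℚ), τ • x - x ∈ P) → ρ τ = 1

/-- `ρ` is unramified at all primes that do not lie above a prime number in `S` (in particular at
the primes above `p`, if `p ∉ S`). -/
def UnramifiedOutside {n : ℕ} {A : Type} [CommRing A] (S : Finset ℕ)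
    (ρ : Gal(AlgebraicClosure ℚ/ℚ) →* GL (Fin n) A) : Prop :=
  ∀ P : Ideal (𝓞 (AlgebraicClosure ℚ)), P.IsMaximal →
    (∀ l ∈ S, (l : 𝓞 (AlgebraicClosure ℚ)) ∉ P) → UnramifiedAt ρ P

/-- The inertia groups at the primes which lie above a prime number in `S` act trivially modulo
`p ^ m`. -/
def InertiaTrivialMod {n : ℕ} {A : Type} [CommRing A] (p m : ℕ) (S : Finset ℕ)
    (ρ : Gal(AlgebraicClosure ℚ/ℚ) →* GL (Fin n) A) : Prop :=
  ∀ P : Ideal (𝓞 (AlgebraicClosure ℚ)), P.IsMaximal →
    (∃ l ∈ S, (l : 𝓞 (AlgebraicClosure ℚ)) ∈ P) →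
    ∀ τ : Gal(AlgebraicClosure ℚ/ℚ), (∀ x : 𝓞 (AlgebraicClosure ℚ), τ • x - x ∈ P) →
      ∀ i j, (p : A) ^ m ∣ ((ρ τ : Matrix (Fin n) (Fin n) A) - 1) i j

/-- The linking number `λ l j` of the distinct primes `l` and `j`: the value of the homomorphism
`χ j : (ℤ/j)ˣ → ℤ/p` at the class of `l` (and `0` if `j` divides `l`, in particular if `l = j`). -/
noncomputable def linking {p : ℕ} (χ : ∀ j : ℕ, (ZMod j)ˣ →* Multiplicative (ZMod p))
    (l j : ℕ) : ZMod p :=
  open Classical in if h : Nat.Coprime l j then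
    Multiplicative.toAdd (χ j (ZMod.unitOfCoprime l h)) else 0

/-- The class `u l` of `(l - 1) / p ^ m` modulo `p`. -/
def level (p m l : ℕ) : ZMod p := (((l - 1) / p ^ m : ℕ) : ZMod p)

/-- The weights `w` symmetrise the linking numbers of the primes in `J`. -/
def Symmetrises {p : ℕ} (χ : ∀ j : ℕ, (ZMod j)ˣ →* Multiplicative (ZMod p)) (J : Finset ℕ)
    (w : ℕ → ZMod p) : Prop :=
  ∀ l ∈ J, ∀ j ∈ J, l ≠ j → w l * linking χ l j = w j * linking χ j l

/-- The shifted linking number `λ l j - t l * (w j * u j)`. -/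
noncomputable def shifted {p : ℕ} (m : ℕ) (χ : ∀ j : ℕ, (ZMod j)ˣ →* Multiplicative (ZMod p))
    (w t : ℕ → ZMod p) (l j : ℕ) : ZMod p :=
  linking χ l j - t l * (w j * level p m j)

/-- For some `l ∈ J` the shifted linking numbers of `l` and `j` vanish for all other `j ∈ J` but
at most one. -/
def SparseRow {p : ℕ} (m : ℕ) (χ : ∀ j : ℕ, (ZMod j)ˣ →* Multiplicative (ZMod p))
    (w t : ℕ → ZMod p) (J : Finset ℕ) : Prop :=
  ∃ l ∈ J, {j : ℕ | j ∈ J ∧ j ≠ l ∧ shifted m χ w t l j ≠ 0}.Subsingleton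

/-- There is a nonempty proper subset `K` of `J`, on which `t` is a multiple of `u`, such that the
shifted linking numbers of all `l ∈ K` and `j ∈ J \ K` vanish. -/
def ClosedSubset {p : ℕ} (m : ℕ) (χ : ∀ j : ℕ, (ZMod j)ˣ →* Multiplicative (ZMod p))
    (w t : ℕ → ZMod p) (J : Finset ℕ) : Prop :=
  ∃ K : Finset ℕ, K ⊂ J ∧ K.Nonempty ∧ (∃ s : ZMod p, ∀ l ∈ K, t l = s * level p m l) ∧
    ∀ l ∈ K, ∀ j ∈ J, j ∉ K → shifted m χ w t l j = 0

/-- The shifted linking numbers are of the form `a l * c j` for all `l ≠ j` in `J`. -/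
def RankOne {p : ℕ} (m : ℕ) (χ : ∀ j : ℕ, (ZMod j)ˣ →* Multiplicative (ZMod p))
    (w t : ℕ → ZMod p) (J : Finset ℕ) : Prop :=
  ∃ a c : ℕ → ZMod p, ∀ l ∈ J, ∀ j ∈ J, l ≠ j → shifted m χ w t l j = a l * c j

/-- `J = {a, b, c}` and `u b * λ a c + u a * λ b c ≠ 0`. -/
def GoodTriple {p : ℕ} (m : ℕ) (χ : ∀ j : ℕ, (ZMod j)ˣ →* Multiplicative (ZMod p))
    (J : Finset ℕ) : Prop :=
  ∃ a b c : ℕ, a ≠ b ∧ a ≠ c ∧ b ≠ c ∧ J = {a, b, c} ∧
    level p m b * linking χ a c + level p m a * linking χ b c ≠ 0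

/-- Over no field of characteristic `p` there are nonzero nilpotent `n × n` matrices `M l`, one for
each `l ∈ J`, such that the commutator of `∑ j ∈ J, λ l j • M j` and `M l` is `u l • M l` for all
`l ∈ J`. -/
def NoTuple {p : ℕ} (n m : ℕ) (χ : ∀ j : ℕ, (ZMod j)ˣ →* Multiplicative (ZMod p))
    (J : Finset ℕ) : Prop :=
  ∀ (K : Type) [Field K] [Algebra (ZMod p) K] (M : ℕ → Matrix (Fin n) (Fin n) K),
    (∀ l ∈ J, IsNilpotent (M l) ∧ M l ≠ 0) →
    (∀ l ∈ J, (∑ j ∈ J, linking χ l j • M j) * M l - M l * (∑ j ∈ J, linking χ l j • M j) =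
      level p m l • M l) → False

/-- One of the conditions above holds for `J`. -/
def Admissible {p : ℕ} (n m : ℕ) (χ : ∀ j : ℕ, (ZMod j)ˣ →* Multiplicative (ZMod p))
    (J : Finset ℕ) : Prop :=
  (∃ w t : ℕ → ZMod p, Symmetrises χ J w ∧
    (SparseRow m χ w t J ∨ ClosedSubset m χ w t J ∨ RankOne m χ w t J)) ∨
  GoodTriple m χ J ∨ NoTuple n m χ J

theorem eq_one_of_ne_zero : ∀ z : ZMod 2, z ≠ 0 → z = 1 := by decide

theorem result (p : ℕ) [Fact p.Prime] (m n : ℕ) (hm : 2 < p ^ m) (S : Finset ℕ)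
    (hS : ∀ l ∈ S, l.Prime ∧ l ≠ p ∧ ¬ p ^ (m + 1) ∣ l - 1)
    (χ : ∀ j : ℕ, (ZMod j)ˣ →* Multiplicative (ZMod p))
    (hχ : ∀ l ∈ S, p ∣ l - 1 → ∃ x, χ l x ≠ 1)
    (hJ : ∀ J : Finset ℕ, J ⊆ S → (∀ l ∈ J, p ^ m ∣ l - 1) → 3 ≤ J.card →
      (p = 2 → 5 ≤ J.card) → Admissible n m χ J)
    (A : Type) [CommRing A] [IsDomain A] [IsDiscreteValuationRing A] [CharZero A]
    [TopologicalSpace A] (hA : IsAdic (maximalIdeal A)) (hpA : (p : A) ∈ maximalIdeal A)
    (ρ : Gal(AlgebraicClosure ℚ/ℚ) →* GL (Fin n) A) (hρ : Continuous ρ)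
    (hur : UnramifiedOutside S ρ) (hI : InertiaTrivialMod p m S ρ) :
    ∀ g, ρ g = 1 := by
  classical
  have hp : p.Prime := Fact.out
  have hm1 : 1 ≤ m := by
    rcases Nat.eq_zero_or_pos m with h | h
    · rw [h, pow_zero] at hm
      omega
    · exact h
  have hdvd : ∀ l, p ^ m ∣ l - 1 → p ∣ l - 1 := fun l h => (dvd_pow_self p (by omega)).trans h
  set T0 := S.filter (fun l => p ^ m ∣ l - 1) with hT0
  have hT0mem : ∀ l ∈ T0, l ∈ S ∧ p ^ m ∣ l - 1 := fun l hl => Finset.mem_filter.1 hl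
  have hlk : ∀ l j, linking χ l j = W569.TG.lk χ l j := fun l j => rfl
  have hu : ∀ l ∈ T0, (((l - 1) / p ^ m : ℕ) : ZMod p) ≠ 0 := by
    intro l hl
    obtain ⟨hlS, hlm⟩ := hT0mem l hl
    rw [Ne, ZMod.natCast_eq_zero_iff]
    rintro ⟨d, hd⟩
    apply (hS l hlS).2.2
    refine ⟨d, ?_⟩
    rw [pow_succ, mul_assoc, ← hd, Nat.mul_div_cancel' hlm]
  -- no solutions
  have hNo : ∀ J ⊆ T0, J.Nonempty → TH831.NA.NoSol n (W569.TG.lk χ)
      (fun l => (((l - 1) / p ^ m : ℕ) : ZMod p)) J := by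
    refine TH831.NA.noSol_ind fun J hJT hJne ih => ?_
    have huJ : ∀ l ∈ J, (fun l => (((l - 1) / p ^ m : ℕ) : ZMod p)) l ≠ 0 := fun l hl =>
      hu l (hJT hl)
    by_cases h3 : 3 ≤ J.card
    · by_cases h5 : p = 2 → 5 ≤ J.card
      · rcases hJ J (fun l hl => (hT0mem l (hJT hl)).1) (fun l hl => (hT0mem l (hJT hl)).2) h3 h5
          with ⟨w, t, hw, h | h | h⟩ | h | h
        · have hsym : ∀ l ∈ J, ∀ j ∈ J, w l * W569.TG.lk χ l j = w j * W569.TG.lk χ j l := by
            intro l hl j hj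
            by_cases hlj : l = j
            · rw [hlj]
            · exact hw l hl j hj hlj
          obtain ⟨l, hl, hs⟩ := h
          exact TH831.NA.noSol_row huJ hsym (t := t) hl fun i hi j hj =>
            hs ⟨hi.1, hi.2.1, fun h => hi.2.2 (sub_eq_zero.1 h)⟩
              ⟨hj.1, hj.2.1, fun h => hj.2.2 (sub_eq_zero.1 h)⟩
        · have hsym : ∀ l ∈ J, ∀ j ∈ J, w l * W569.TG.lk χ l j = w j * W569.TG.lk χ j l := by
            intro l hl j hj
            by_cases hlj : l = j
            · rw [hlj]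
            · exact hw l hl j hj hlj
          obtain ⟨K, hK, hKne, ⟨s, hs⟩, hKJ⟩ := h
          refine TH831.NA.noSol_sub (s := s) hK.1 hsym (fun l hl j hj hjK => ?_) (ih K hK hKne)
          have h1 := sub_eq_zero.1 (hKJ l hl j hj hjK)
          rw [hs l hl] at h1
          exact h1
        · have hsym : ∀ l ∈ J, ∀ j ∈ J, w l * W569.TG.lk χ l j = w j * W569.TG.lk χ j l := by
            intro l hl j hj
            by_cases hlj : l = j
            · rw [hlj]
            · exact hw l hl j hj hlj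
          obtain ⟨a, c, hac⟩ := h
          refine TH831.NA.noSol_rank huJ hJne hsym (t := t) (a := a) (c := c)
            fun l hl j hj hjl => ?_
          have h1 := hac l hl j hj (Ne.symm hjl)
          exact sub_eq_iff_eq_add'.1 h1
        · obtain ⟨a, b, c, hab, hac, hbc, hJ3, hne⟩ := h
          exact TH831.NA.noSol_triple huJ hab hac hbc hJ3 hne
        · intro K iK iA M hM hrel
          refine h K M hM fun l hl => ?_
          have h1 := hrel l hl
          rw [Finset.sum_mul, Finset.mul_sum, ← Finset.sum_sub_distrib]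
          refine Eq.trans (Finset.sum_congr rfl fun j _ => ?_) h1
          rw [smul_mul_assoc, mul_smul_comm, ← smul_sub, hlk]
      · -- `p = 2` and at most four primes
        push Not at h5
        obtain ⟨rfl, h5⟩ := h5
        have hm2 : 2 ≤ m := by
          by_contra hcon
          have h1 : m = 1 := by omega
          rw [h1] at hm
          norm_num at hm
        have hz2 := eq_one_of_ne_zero
        have hker : ∀ l ∈ T0, ∀ x, χ l x = 1 ↔ x ^ ((l - 1) / 2) = 1 := fun l hl x =>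
          TH831.NA.char_ker (hS l (hT0mem l hl).1).1 (hdvd l (hT0mem l hl).2)
            (hχ l (hT0mem l hl).1 (hdvd l (hT0mem l hl).2)) x
        have hlk0 : ∀ l ∈ T0, ∀ j ∈ T0, j ≠ l →
            (W569.TG.lk χ l j = 0 ↔ IsSquare (l : ZMod j)) := by
          intro l hl j hj hjl
          rw [TH146.FM.lk_eq_zero_iff (hS j (hT0mem j hj).1).1 (hdvd j (hT0mem j hj).2)
            (hS l (hT0mem l hl).1).1 (Ne.symm hjl) (hker j hj), isSquare_iff_exists_sq]
          exact ⟨fun ⟨y, hy⟩ => ⟨y, hy.symm⟩, fun ⟨y, hy⟩ => ⟨y, hy.symm⟩⟩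
        have hmod4 : ∀ l ∈ T0, l % 4 = 1 := by
          intro l hl
          obtain ⟨hlS, hlm⟩ := hT0mem l hl
          have h4 : 4 ∣ l - 1 := by
            have : (2 : ℕ) ^ 2 ∣ 2 ^ m := pow_dvd_pow 2 hm2
            exact this.trans hlm
          have := (hS l hlS).1.two_le
          omega
        have hsym0 : ∀ l ∈ J, ∀ j ∈ J, W569.TG.lk χ l j = W569.TG.lk χ j l := by
          intro l hl j hj
          by_cases hjl : j = l
          · rw [hjl]
          have i1 : Fact l.Prime := ⟨(hS l (hT0mem l (hJT hl)).1).1⟩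
          have i2 : Fact j.Prime := ⟨(hS j (hT0mem j (hJT hj)).1).1⟩
          have h1 := hlk0 l (hJT hl) j (hJT hj) hjl
          have h2 := hlk0 j (hJT hj) l (hJT hl) (Ne.symm hjl)
          rw [ZMod.exists_sq_eq_prime_iff_of_mod_four_eq_one (hmod4 j (hJT hj))
            (hS l (hT0mem l (hJT hl)).1).2.1, ← h2] at h1
          by_cases h0 : W569.TG.lk χ l j = 0
          · rw [h0, h1.1 h0]
          · rw [hz2 _ h0, hz2 _ fun h => h0 (h1.2 h)]
        have hsym : ∀ l ∈ J, ∀ j ∈ J, (fun _ : ℕ => (1 : ZMod 2)) l * W569.TG.lk χ l j =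
            (fun _ : ℕ => (1 : ZMod 2)) j * W569.TG.lk χ j l := by
          intro l hl j hj
          rw [hsym0 l hl j hj]
        have hu1 : ∀ l ∈ J, (((l - 1) / 2 ^ m : ℕ) : ZMod 2) = 1 := fun l hl =>
          hz2 _ (huJ l hl)
        obtain ⟨l, hl⟩ := hJne
        set X := (J.erase l).filter (fun j => W569.TG.lk χ l j = 1) with hX
        set Y := (J.erase l).filter (fun j => ¬ W569.TG.lk χ l j = 1) with hY
        have hcard : X.card + Y.card = J.card - 1 := by
          rw [hX, hY, Finset.card_filter_add_card_filter_not, Finset.card_erase_of_mem hl]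
        have h1 : X.card ≤ 1 ∨ Y.card ≤ 1 := by omega
        rcases h1 with h1 | h1
        · refine TH831.NA.noSol_row huJ hsym (t := fun _ => 0) hl ?_
          rintro i ⟨hi, hil, hi'⟩ j ⟨hj, hjl, hj'⟩
          rw [zero_mul] at hi' hj'
          exact Finset.card_le_one.1 h1 i
            (Finset.mem_filter.2 ⟨Finset.mem_erase.2 ⟨hil, hi⟩, hz2 _ hi'⟩) j
            (Finset.mem_filter.2 ⟨Finset.mem_erase.2 ⟨hjl, hj⟩, hz2 _ hj'⟩)
        · refine TH831.NA.noSol_row huJ hsym (t := fun _ => 1) hl ?_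
          rintro i ⟨hi, hil, hi'⟩ j ⟨hj, hjl, hj'⟩
          simp only [hu1 i hi, hu1 j hj, mul_one] at hi' hj'
          exact Finset.card_le_one.1 h1 i
            (Finset.mem_filter.2 ⟨Finset.mem_erase.2 ⟨hil, hi⟩, hi'⟩) j
            (Finset.mem_filter.2 ⟨Finset.mem_erase.2 ⟨hjl, hj⟩, hj'⟩)
    · -- at most two primes
      obtain ⟨l, hl⟩ := hJne
      refine TH831.NA.noSol_row huJ (w := fun _ => 0) (t := fun _ => 0) (fun i _ j _ => ?_) hl ?_
      · rw [zero_mul, zero_mul]
      · rintro i ⟨hi, hil, -⟩ j ⟨hj, hjl, -⟩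
        by_contra hij
        apply h3
        have h4 : ({l, i, j} : Finset ℕ).card = 3 := by
          rw [Finset.card_insert_of_notMem (by simp [Ne.symm hil, Ne.symm hjl]),
            Finset.card_insert_of_notMem (by simp [hij]), Finset.card_singleton]
        rw [← h4]
        apply Finset.card_le_card
        intro x hx
        simp only [Finset.mem_insert, Finset.mem_singleton] at hx
        rcases hx with rfl | rfl | rfl
        · exact hl
        · exact hi
        · exact hj
  have hcts := TH831.NA.cts_memN hA hρ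
  have hur' : ∀ g ∈ TH831.OE.UrT S, ρ g = 1 := fun g ⟨P, hP, h2, h3⟩ => hur P hP h2 g h3
  have hcong : ∀ g i j, (p : A) ^ m ∣ ((ρ g : Matrix (Fin n) (Fin n) A) - 1) i j := by
    intro g i j
    rw [← Ideal.mem_span_singleton]
    refine TH831.NA.cong_of_inertia hcts (Ideal.span {(p : A) ^ m}) (fun P hP τ hτ => ?_) g i j
    by_cases hSP : ∃ l ∈ S, (l : 𝓞 (AlgebraicClosure ℚ)) ∈ P
    · exact fun i j => Ideal.mem_span_singleton.2 (hI P hP hSP τ hτ i j)
    · intro i j
      have h1 : ρ τ = 1 := hur P hP (fun l hl hlP => hSP ⟨l, hl, hlP⟩) τ hτ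
      have h2 : ((ρ τ : Matrix (Fin n) (Fin n) A) - 1) i j ∈ Ideal.span {(p : A) ^ m} := by
        rw [h1, Units.val_one, sub_self]
        exact Ideal.zero_mem _
      exact h2
  have hcong' : ∀ g, ∃ α : Matrix (Fin n) (Fin n) A,
      (ρ g : Matrix (Fin n) (Fin n) A) = 1 + ((p : A) ^ m) • α := by
    intro g
    choose b hb using hcong g
    refine ⟨Matrix.of b, ?_⟩
    rw [← sub_eq_iff_eq_add']
    ext i j
    rw [hb, Matrix.smul_apply, Matrix.of_apply, smul_eq_mul]
  have htor := TH831.NA.entries_tor hpA hm hS hχ hNo hcts hur' hcong'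
  intro g
  have hp0 : ∀ k : ℕ, (p : A) ^ k ≠ 0 := fun k => pow_ne_zero k (Nat.cast_ne_zero.2 hp.ne_zero)
  apply Units.ext
  rw [Units.val_one, ← sub_eq_zero]
  ext i j
  obtain ⟨k, hk⟩ := htor g i j
  have hk' : (p : A) ^ k * ((ρ g : Matrix (Fin n) (Fin n) A) - 1) i j = 0 := hk
  rw [Matrix.zero_apply]
  exact (mul_eq_zero.1 hk').resolve_left (hp0 k)

end Pool.Agent.Results.MP_f68ac8_nt.TameAllRanks
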